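import Pool.Agent.Lib.H57U.Defs

/-!
Chunk A1 (S). Basic facts on the coordinates `z = x / y`, `w = 1 / y`.

* `wc_ne_zero_iff`: for an affine point `(x, y)`: `wc ≠ 0` iff `y ≠ 0`.
* `wc_eqn`: divide `y² = x³ + a x + b` by `y³`: `w = z³ + a z w² + b w³`.
* `isAt_zw`: `x = z / w`, `y = 1 / w`.
* `norm_wc`: `w (1 - a z w - b w²) = z³`, and `‖a z w + b w²‖ ≤ δ < 1` by
  `‖ρ a‖ δ ≤ 1`, `‖ρ b‖ δ ≤ 1` (ultrametric inequality), so `‖w‖ = ‖z‖³`.
* `eq_of_zc`: two points of the neighbourhood with the same `z` are equal: if `w ≠ w'` then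
  `w - w' = (w - w') (a z (w + w') + b (w² + w w' + w'²))` forces `1 = (small)`, a contradiction;
  then `x`, `y` agree by `isAt_zw`.
-/

set_option autoImplicit false

open WeierstrassCurve WeierstrassCurve.Affine Module
open Pool.Agent.H60.UDef

namespace Pool.Agent.H57U

section

variable {F : Type} [Field F] {a b : F}

theorem ne_zero_of_wc {P : ((shortW a b)⁄F).Point} (h : wc P ≠ 0) : P ≠ 0 := by
  rintro rfl
  exact h wc_zero

theorem isAt_zw {P : ((shortW a b)⁄F).Point} (h : wc P ≠ 0) :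
    IsAt P (zc P / wc P) (wc P)⁻¹ := by
  obtain ⟨x, y, hP⟩ := exists_isAt (ne_zero_of_wc h)
  have hz := zc_isAt hP
  have hw := wc_isAt hP
  have hy : y ≠ 0 := by
    rintro rfl
    rw [inv_zero] at hw
    exact h hw
  have h1 : zc P / wc P = x := by
    rw [hz, hw]
    field_simp
  have h2 : (wc P)⁻¹ = y := by
    rw [hw, inv_inv]
  rw [h1, h2]
  exact hP

theorem wc_eqn (P : ((shortW a b)⁄F).Point) (h : P = 0 ∨ wc P ≠ 0) :
    wc P = zc P ^ 3 + a * zc P * wc P ^ 2 + b * wc P ^ 3 := by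
  rcases h with rfl | h
  · simp
  · have h1 := (isAt_zw h).eqn
    simp only [Algebra.algebraMap_self, RingHom.id_apply] at h1
    field_simp at h1
    linear_combination h1

theorem zc_neg (P : ((shortW a b)⁄F).Point) : zc (-P) = -zc P := by
  by_cases hP : P = 0
  · subst hP
    simp
  · obtain ⟨x, y, h⟩ := exists_isAt hP
    rw [zc_isAt h, zc_isAt h.neg, div_neg]

theorem wc_neg (P : ((shortW a b)⁄F).Point) : wc (-P) = -wc P := by
  by_cases hP : P = 0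
  · subst hP
    simp
  · obtain ⟨x, y, h⟩ := exists_isAt hP
    rw [wc_isAt h, wc_isAt h.neg, inv_neg]

variable {p : ℕ} [Fact p.Prime] {ρ : F →+* ℚ_[p]} {δ : ℝ}

theorem InU.neg {P : ((shortW a b)⁄F).Point} (h : InU ρ δ P) : InU ρ δ (-P) := by
  obtain ⟨h1, h2, h3⟩ := h
  refine ⟨?_, ?_, ?_⟩
  · rcases h1 with rfl | h1
    · left; simp
    · right
      rw [wc_neg]
      exact neg_ne_zero.2 h1
  · rw [zc_neg, map_neg, norm_neg]
    exact h2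
  · rw [wc_neg, map_neg, norm_neg]
    exact h3

/-- `‖1 - x‖ = 1` if `‖x‖ < 1`. -/
theorem a1_one_sub {x : ℚ_[p]} (h : ‖x‖ < 1) : ‖1 - x‖ = 1 := by
  have h1 : ‖(1 : ℚ_[p])‖ ≠ ‖-x‖ := by
    rw [norm_one, norm_neg]
    exact (ne_of_gt h)
  rw [sub_eq_add_neg, Padic.add_eq_max_of_ne h1, norm_one, norm_neg]
  exact max_eq_left h.le

/-- `‖x + y‖ ≤ c` if both are. -/
theorem a1_add_le {x y : ℚ_[p]} {c : ℝ} (hx : ‖x‖ ≤ c) (hy : ‖y‖ ≤ c) : ‖x + y‖ ≤ c :=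
  le_trans (Padic.nonarchimedean x y) (max_le hx hy)

theorem a1_sub_le {x y : ℚ_[p]} {c : ℝ} (hx : ‖x‖ ≤ c) (hy : ‖y‖ ≤ c) : ‖x - y‖ ≤ c := by
  rw [sub_eq_add_neg]
  exact a1_add_le hx (by rwa [norm_neg])

/-- `‖a u v‖ ≤ δ`. -/
theorem a1_mul3 {a' u v : ℚ_[p]} {δ : ℝ} (ha : ‖a'‖ * δ ≤ 1) (hu : ‖u‖ ≤ δ)
    (hv : ‖v‖ ≤ δ) : ‖a' * u * v‖ ≤ δ := by
  rw [norm_mul, norm_mul]
  have h1 : ‖a'‖ * ‖u‖ ≤ 1 :=
    le_trans (mul_le_mul_of_nonneg_left hu (norm_nonneg _)) ha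
  calc ‖a'‖ * ‖u‖ * ‖v‖ ≤ 1 * δ :=
        mul_le_mul h1 hv (norm_nonneg _) zero_le_one
    _ = δ := one_mul _

theorem norm_wc (hδ : Small ρ a b δ) {P : ((shortW a b)⁄F).Point} (h : InU ρ δ P) :
    ‖ρ (wc P)‖ = ‖ρ (zc P)‖ ^ 3 := by
  obtain ⟨h1, h2, h3⟩ := h
  have e := congrArg ρ (wc_eqn P h1)
  simp only [map_add, map_mul, map_pow] at e
  have e1 : ρ (wc P) * (1 - (ρ a * ρ (zc P) * ρ (wc P) + ρ b * ρ (wc P) * ρ (wc P)))
      = ρ (zc P) ^ 3 := by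
    linear_combination e
  have h4 : ‖ρ a * ρ (zc P) * ρ (wc P) + ρ b * ρ (wc P) * ρ (wc P)‖ < 1 :=
    lt_of_le_of_lt (a1_add_le (a1_mul3 hδ.ha h2 h3) (a1_mul3 hδ.hb h3 h3))
      hδ.lt_one
  have e2 := congrArg norm e1
  rw [norm_mul, a1_one_sub h4, mul_one, norm_pow] at e2
  exact e2

theorem zc_ne_zero (hδ : Small ρ a b δ) {P : ((shortW a b)⁄F).Point} (h : InU ρ δ P)
    (hP : P ≠ 0) : zc P ≠ 0 := by
  intro h0
  have h1 := norm_wc hδ h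
  rw [h0, map_zero, norm_zero, zero_pow three_ne_zero, norm_eq_zero, map_eq_zero] at h1
  rcases h.1 with h2 | h2
  · exact hP h2
  · exact h2 h1

theorem eq_of_zc (hδ : Small ρ a b δ) {P Q : ((shortW a b)⁄F).Point} (hP : InU ρ δ P)
    (hQ : InU ρ δ Q) (h : zc P = zc Q) : P = Q := by
  have hw : wc P = wc Q := by
    by_contra hne
    have e1 := wc_eqn P hP.1
    have e2 := wc_eqn Q hQ.1
    rw [h] at e1
    have e3 : (wc P - wc Q) * (1 - (a * zc Q * (wc P + wc Q)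
        + b * (wc P ^ 2 + wc P * wc Q + wc Q ^ 2))) = 0 := by
      linear_combination e1 - e2
    have e4 : 1 - (a * zc Q * (wc P + wc Q)
        + b * (wc P ^ 2 + wc P * wc Q + wc Q ^ 2)) = 0 :=
      (mul_eq_zero.1 e3).resolve_left (sub_ne_zero.2 hne)
    have e5 := congrArg ρ e4
    simp only [map_add, map_mul, map_pow, map_sub, map_one, map_zero] at e5
    have h5 : ‖ρ a * ρ (zc Q) * ρ (wc P) + ρ a * ρ (zc Q) * ρ (wc Q) +
        (ρ b * ρ (wc P) * ρ (wc P) + (ρ b * ρ (wc P) * ρ (wc Q)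
          + ρ b * ρ (wc Q) * ρ (wc Q)))‖ < 1 :=
      lt_of_le_of_lt (a1_add_le (a1_add_le (a1_mul3 hδ.ha hQ.2.1 hP.2.2)
        (a1_mul3 hδ.ha hQ.2.1 hQ.2.2)) (a1_add_le (a1_mul3 hδ.hb hP.2.2 hP.2.2)
          (a1_add_le (a1_mul3 hδ.hb hP.2.2 hQ.2.2)
            (a1_mul3 hδ.hb hQ.2.2 hQ.2.2)))) hδ.lt_one
    have h6 := a1_one_sub h5
    have e6 : 1 - (ρ a * ρ (zc Q) * ρ (wc P) + ρ a * ρ (zc Q) * ρ (wc Q) +
        (ρ b * ρ (wc P) * ρ (wc P) + (ρ b * ρ (wc P) * ρ (wc Q)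
          + ρ b * ρ (wc Q) * ρ (wc Q)))) = 0 := by
      linear_combination e5
    rw [e6, norm_zero] at h6
    exact zero_ne_one h6
  by_cases h0 : wc P = 0
  · rcases hP.1 with h1 | h1
    · rcases hQ.1 with h2 | h2
      · rw [h1, h2]
      · exact absurd (hw ▸ h0) h2
    · exact absurd h0 h1
  · have h1 := isAt_zw h0
    have h2 := isAt_zw (hw ▸ h0 : wc Q ≠ 0)
    rw [h, hw] at h1
    exact h1.ext h2

end

end Pool.Agent.H57U
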