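import Pool.Agent.Lib.H57U.Ctx

/-!
Chunk G1 (S/M). Elementary facts on the context: `vec` is additive, hence `ℤ`-linear;
`‖vec P σ‖ = ‖σ (zc ((n+1) P))‖` (because `‖lg - z‖ ≤ p ‖z‖² ≤ p⁻¹ ‖z‖ < ‖z‖` if `z ≠ 0`, as
`‖z‖ ≤ δ ≤ p⁻²`); no coordinate of `vec P` vanishes if `(n+1) P ≠ 0` (`zc ≠ 0`: the
equation `w = z³ + a z w² + b w³` with `z = 0` gives `w = b w³`, `‖b w²‖ < 1`, so `w = 0`;
this is `zc_ne_zero` of A1); and then `P` has infinite order.
-/

set_option autoImplicit false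

open WeierstrassCurve WeierstrassCurve.Affine Module
open Pool.Agent.H60.UDef

namespace Pool.Agent.H57U

section

variable {p : ℕ} [Fact p.Prime] {L : Type} [Field L] {a b : L}

open scoped Classical in
theorem Ctx.vec_add (C : Ctx p L a b) (P Q : ((shortW a b)⁄L).Point) :
    C.vec (P + Q) = C.vec P + C.vec Q := by
  funext σ
  simp only [Ctx.vec, Pi.add_apply]
  rw [nsmul_add]
  exact C.lg_add σ _ _ (C.inU P σ) (C.inU Q σ)

open scoped Classical in
theorem Ctx.vec_zero (C : Ctx p L a b) : C.vec (0 : ((shortW a b)⁄L).Point) = 0 := by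
  have h := C.vec_add 0 0
  rw [add_zero] at h
  exact left_eq_add.mp h

open scoped Classical in
theorem Ctx.vec_nsmul (C : Ctx p L a b) (P : ((shortW a b)⁄L).Point) (k : ℕ) :
    C.vec (k • P) = (k : ℚ_[p]) • C.vec P := by
  induction k with
  | zero => rw [zero_nsmul, C.vec_zero, Nat.cast_zero, zero_smul]
  | succ k ih =>
    rw [succ_nsmul, C.vec_add, ih, Nat.cast_succ, add_smul, one_smul]

open scoped Classical in
theorem Ctx.vec_neg (C : Ctx p L a b) (P : ((shortW a b)⁄L).Point) :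
    C.vec (-P) = -C.vec P := by
  have h := C.vec_add P (-P)
  rw [add_neg_cancel, C.vec_zero] at h
  exact (neg_eq_of_add_eq_zero_right h.symm).symm

open scoped Classical in
theorem Ctx.vec_zsmul (C : Ctx p L a b) (P : ((shortW a b)⁄L).Point) (k : ℤ) :
    C.vec (k • P) = (k : ℚ_[p]) • C.vec P := by
  obtain ⟨n, rfl | rfl⟩ := k.eq_nat_or_neg
  · rw [natCast_zsmul, C.vec_nsmul, Int.cast_natCast]
  · rw [neg_smul, natCast_zsmul, C.vec_neg, C.vec_nsmul, Int.cast_neg, Int.cast_natCast, neg_smul]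

end

end Pool.Agent.H57U
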