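import Pool.Agent.Lib.H57U.Ctx
import Pool.Agent.Lib.H57U.A1
import Pool.Agent.Lib.H57U.G1

/-!
Chunk G2 (S/M). Norms. `‖lg - z‖ ≤ p ‖z‖² < ‖z‖` if `z ≠ 0` (`‖z‖ ≤ δ ≤ p⁻²`), so `‖lg‖ = ‖z‖`
(also for `z = 0`). If `(n+1) P ≠ 0` then `zc ≠ 0` (`zc_ne_zero`), so `vec P σ ≠ 0`, and all
`k P`, `k > 0`, are nonzero (`vec (k P) = k vec P ≠ 0`, `vec 0 = 0`).
(There is at least one embedding in `not_torsion`: hypothesis `Nonempty`.)
-/

set_option autoImplicit false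

open WeierstrassCurve WeierstrassCurve.Affine Module
open Pool.Agent.H60.UDef

namespace Pool.Agent.H57U

section

variable {p : ℕ} [Fact p.Prime] {L : Type} [Field L] {a b : L}

open scoped Classical in
theorem Ctx.norm_vec (C : Ctx p L a b) (P : ((shortW a b)⁄L).Point) (σ : L →+* ℚ_[p]) :
    ‖C.vec P σ‖ = ‖σ (zc ((C.n + 1) • P))‖ := by
  have hp : (1 : ℝ) < p := by exact_mod_cast (Fact.out : p.Prime).one_lt
  have hb := C.lg_bound σ _ (C.inU P σ)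
  have hu := (C.inU P σ).2.1
  have hd := (C.small σ).le
  have hd0 := (C.small σ).pos
  have hv : C.vec P σ = C.lg σ ((C.n + 1) • P) := rfl
  rw [hv]
  set z := σ (zc ((C.n + 1) • P)) with hz
  set g := C.lg σ ((C.n + 1) • P) with hg
  rcases eq_or_ne z 0 with h0 | h0
  · rw [h0, norm_zero] at hb
    have : ‖g - z‖ ≤ 0 := by
      rw [h0]
      refine hb.trans (by simp)
    have h1 : g - z = 0 := by simpa using this
    have h2 : g = z := sub_eq_zero.mp h1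
    rw [h2]
  · have hz0 : 0 < ‖z‖ := norm_pos_iff.mpr h0
    have h1 : ‖g - z‖ < ‖z‖ := by
      refine lt_of_le_of_lt hb ?_
      have h2 : (p : ℝ) * ‖z‖ ≤ (p : ℝ)⁻¹ := by
        have h3 : ‖z‖ ≤ ((p : ℝ)⁻¹) ^ 2 := hu.trans hd
        calc (p : ℝ) * ‖z‖ ≤ p * ((p : ℝ)⁻¹) ^ 2 := by gcongr
          _ = (p : ℝ)⁻¹ := by field_simp
      have h4 : (p : ℝ)⁻¹ < 1 := inv_lt_one_of_one_lt₀ hp
      calc (p : ℝ) * ‖z‖ ^ 2 = (p * ‖z‖) * ‖z‖ := by ring
        _ < 1 * ‖z‖ := by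
          apply mul_lt_mul_of_pos_right (lt_of_le_of_lt h2 h4) hz0
        _ = ‖z‖ := one_mul _
    have h5 : g = (g - z) + z := by ring
    rw [h5]
    have h6 := IsUltrametricDist.norm_add_eq_max_of_norm_ne_norm (ne_of_lt h1)
    rw [h6, max_eq_right h1.le]

open scoped Classical in
theorem Ctx.vec_sub_zc (C : Ctx p L a b) (P : ((shortW a b)⁄L).Point) (σ : L →+* ℚ_[p]) :
    ‖C.vec P σ - σ (zc ((C.n + 1) • P))‖ ≤ p * ‖C.vec P σ‖ ^ 2 := by
  rw [C.norm_vec P σ]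
  exact C.lg_bound σ _ (C.inU P σ)

open scoped Classical in
theorem Ctx.vec_ne_zero (C : Ctx p L a b) {P : ((shortW a b)⁄L).Point}
    (hP : (C.n + 1) • P ≠ 0) (σ : L →+* ℚ_[p]) : C.vec P σ ≠ 0 := by
  have h1 := zc_ne_zero (C.small σ) (C.inU P σ) hP
  rw [← norm_pos_iff, C.norm_vec, norm_pos_iff]
  exact (map_ne_zero σ).mpr h1

open scoped Classical in
theorem Ctx.not_torsion (C : Ctx p L a b) [Nonempty (L →+* ℚ_[p])] {P : ((shortW a b)⁄L).Point}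
    (hP : (C.n + 1) • P ≠ 0) {k : ℕ} (hk : 0 < k) : k • P ≠ 0 := by
  intro h
  obtain ⟨σ⟩ := (inferInstance : Nonempty (L →+* ℚ_[p]))
  have h1 := C.vec_nsmul P k
  rw [h, C.vec_zero] at h1
  have h2 := congrFun h1 σ
  rw [Pi.zero_apply, Pi.smul_apply, smul_eq_mul] at h2
  rcases mul_eq_zero.mp h2.symm with h3 | h3
  · exact hk.ne' (by exact_mod_cast h3)
  · exact C.vec_ne_zero hP σ h3

end

end Pool.Agent.H57U
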