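import Pool.Agent.Lib.H57U.Defs

/-!
Chunk D3 (M/L). The compactness lemma. `W` is a space of functions on a finite set `B` over `ℚ_p`
spanned by `w 0, ..., w s`, `w 0` has no zero coordinate, and only constants multiply `W` into
itself. If vectors `S k ∈ W` have nearly the same ratios `S k / S 0 ≈ w k / w 0` (fixed precision
`η`), then `S 0` is nearly constant times `w 0`, and every `r` that multiplies the `S k` nearly into
`W` is nearly constant.

Proof by contradiction. If no `(η, C)` works, then for every `n` there is a counterexample for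
`η = 1/(n+1)`, `C = n + 1`: `S⁽ⁿ⁾`, and either (case 1) `i, j` with `‖S 0 i‖ > C ‖S 0 j‖`, or
(case 2) `i, j, r, T, ε` with `‖r i - r j‖ ‖S 0 i‖ > C ε`, `‖r l * S k l - T k l‖ ≤ ε`. One of the
cases holds for infinitely many `n`, with the same `i, j` (finitely many).
Normalise: norms are powers of `p`; scale `S` (all conditions are homogeneous: multiply `S`, `T`, `ε`
by a power of `p`) so that the sup norm of `S 0` is `1`; then
`‖S k i‖ ≤ (‖w k i‖ + η) / ‖w 0 i‖` is bounded. In case 2 put `y = (r - r j) / c`,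
`c` with `‖c‖ =` sup norm of `r - r j` (nonzero), `T' k = (T k - r j * S k) / c ∈ W`: then
`‖y l * S k l - T' k l‖ ≤ ε / ‖c‖`, and `ε / ‖c‖ < ‖r i - r j‖ ‖S 0 i‖ / (C ‖c‖) ≤ 1 / C`.
By compactness (`ProperSpace`, finite products) pass to a subsequence: `S k → S*k ∈ W`
(`W` is closed, finite dimensional), sup norm of `S*0` is `1`, `S*k i * w 0 i = w k i * S*0 i`,
`y → y*`, sup norm `1`, `y* j = 0`; `T' → y* S*k`, so `y* S*k ∈ W`.
Put `u = S*0 / w 0`: `u * w k = S*k ∈ W` for all `k`, so `u W ⊆ W` (span), `u` is constant `≠ 0`.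
Case 1: `‖S*0 j‖ = lim = 0` (`‖S 0 i‖ ≤ 1`), but `S*0 j = u j * w 0 j ≠ 0`: contradiction.
Case 2: `y* * w k = y* S*k / u ∈ W`, so `y*` is constant, `= y* j = 0`: contradiction.
(You may of course prove the two halves by two compactness arguments, or directly with norm
equivalence in the finite dimensional quotient.)
-/

set_option autoImplicit false

open Module

namespace Pool.Agent.H57U

theorem d3_star {p : ℕ} [Fact p.Prime] {B : Type} [Fintype B] [Nonempty B]
    (W : Submodule ℚ_[p] (B → ℚ_[p])) {s : ℕ} (w : Fin (s + 1) → (B → ℚ_[p]))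
    (hspan : Submodule.span ℚ_[p] (Set.range w) = W)
    (hconst : ∀ y : B → ℚ_[p], (∀ v ∈ W, y * v ∈ W) → ∀ i j, y i = y j) :
    ∃ D : ℝ, 0 < D ∧ ∀ (y : B → ℚ_[p]) (δ : ℝ),
      (∀ k, ∃ t ∈ W, ∀ i, ‖y i * w k i - t i‖ ≤ δ) → ∀ i j, ‖y i - y j‖ ≤ D * δ := by
  classical
  obtain ⟨W', hW'⟩ := Submodule.exists_isCompl W
  obtain ⟨i0⟩ := (inferInstance : Nonempty B)
  have hwW : ∀ k, w k ∈ W := fun k => hspan ▸ Submodule.subset_span ⟨k, rfl⟩
  let q : (B → ℚ_[p]) →ₗ[ℚ_[p]] W' := Submodule.projectionOnto W' W hW'.symm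
  have hq : ∀ x, q x = 0 ↔ x ∈ W := by
    intro x
    have := Submodule.ker_projectionOnto hW'.symm
    rw [← LinearMap.mem_ker]
    show x ∈ LinearMap.ker (Submodule.projectionOnto W' W hW'.symm) ↔ _
    rw [this]
  let f : (B → ℚ_[p]) →ₗ[ℚ_[p]] (Fin (s + 1) → W') × ℚ_[p] :=
    LinearMap.prod (LinearMap.pi fun k => q ∘ₗ (LinearMap.mulRight ℚ_[p] (w k))) (LinearMap.proj i0)
  have hf : LinearMap.ker f = ⊥ := by
    rw [LinearMap.ker_eq_bot']
    intro y hy
    have h1 : ∀ k, q (y * w k) = 0 := fun k => congrFun (congrArg Prod.fst hy) k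
    have h2 : y i0 = 0 := congrArg Prod.snd hy
    have h3 : ∀ v ∈ W, y * v ∈ W := by
      intro v hv
      rw [← hspan] at hv
      induction hv using Submodule.span_induction with
      | mem x hx => obtain ⟨k, rfl⟩ := hx; exact (hq _).1 (h1 k)
      | zero => rw [mul_zero]; exact W.zero_mem
      | add x x' _ _ h h' => rw [mul_add]; exact W.add_mem h h'
      | smul c x _ h => rw [mul_smul_comm]; exact W.smul_mem c h
    funext i
    rw [hconst y h3 i i0, h2]
    rfl
  obtain ⟨K, hK, hanti⟩ := f.exists_antilipschitzWith hf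
  let qc := LinearMap.toContinuousLinearMap q
  refine ⟨2 * ((K : ℝ) * (‖qc‖ + 1)), by positivity, fun y δ h => ?_⟩
  have hδ : 0 ≤ δ := by
    obtain ⟨t, -, ht⟩ := h 0
    exact (norm_nonneg _).trans (ht i0)
  have key : ∀ i, ‖y i - y i0‖ ≤ (K : ℝ) * (‖qc‖ + 1) * δ := by
    let z : B → ℚ_[p] := fun i => y i - y i0
    have hz : ‖z‖ ≤ K * ‖f z‖ := by
      have := hanti.le_mul_dist z 0
      rwa [map_zero, dist_zero_right, dist_zero_right] at this
    have hfz : ‖f z‖ ≤ (‖qc‖ + 1) * δ := by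
      rw [Prod.norm_def]
      refine max_le ?_ ?_
      · refine (pi_norm_le_iff_of_nonneg (by positivity)).2 fun k => ?_
        obtain ⟨t, htW, ht⟩ := h k
        have e1 : (f z).1 k = q (z * w k) := rfl
        have e2 : z * w k = (y * w k - t) + (t - y i0 • w k) := by
          funext i
          show (y i - y i0) * w k i = (y i * w k i - t i) + (t i - y i0 * w k i)
          ring
        have e3 : q (t - y i0 • w k) = 0 := (hq _).2 (W.sub_mem htW (W.smul_mem _ (hwW k)))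
        rw [e1, e2, map_add, e3, add_zero]
        have e4 : ‖y * w k - t‖ ≤ δ := (pi_norm_le_iff_of_nonneg hδ).2 fun i => ht i
        calc ‖q (y * w k - t)‖ = ‖qc (y * w k - t)‖ := rfl
          _ ≤ ‖qc‖ * ‖y * w k - t‖ := qc.le_opNorm _
          _ ≤ (‖qc‖ + 1) * δ := by
              have := norm_nonneg qc
              nlinarith [norm_nonneg (y * w k - t)]
      · have : (f z).2 = 0 := sub_self _
        rw [this, norm_zero]
        positivity
    intro i
    calc ‖y i - y i0‖ = ‖z i‖ := rfl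
      _ ≤ ‖z‖ := norm_le_pi_norm z i
      _ ≤ K * ‖f z‖ := hz
      _ ≤ K * ((‖qc‖ + 1) * δ) := by gcongr
      _ = _ := by ring
  intro i j
  have h1 := key i
  have h2 := key j
  calc ‖y i - y j‖ = ‖(y i - y i0) - (y j - y i0)‖ := by congr 1; ring
    _ ≤ ‖y i - y i0‖ + ‖y j - y i0‖ := norm_sub_le _ _
    _ ≤ _ := by linarith

theorem compact_lemma {p : ℕ} [Fact p.Prime] {B : Type} [Finite B]
    (W : Submodule ℚ_[p] (B → ℚ_[p])) {s : ℕ} (w : Fin (s + 1) → (B → ℚ_[p]))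
    (hspan : Submodule.span ℚ_[p] (Set.range w) = W) (hw0 : ∀ i, w 0 i ≠ 0)
    (hconst : ∀ y : B → ℚ_[p], (∀ v ∈ W, y * v ∈ W) → ∀ i j, y i = y j) :
    ∃ η : ℝ, 0 < η ∧ ∃ C : ℝ, 0 < C ∧ ∀ S : Fin (s + 1) → (B → ℚ_[p]), (∀ k, S k ∈ W) → S 0 ≠ 0 →
      (∀ k i, ‖S k i * w 0 i - w k i * S 0 i‖ ≤ η * ‖S 0 i‖) →
      (∀ i j, ‖S 0 i‖ ≤ C * ‖S 0 j‖) ∧
      ∀ (r : B → ℚ_[p]) (T : Fin (s + 1) → (B → ℚ_[p])) (ε : ℝ), (∀ k, T k ∈ W) →
        (∀ k i, ‖r i * S k i - T k i‖ ≤ ε) → ∀ i j, ‖r i - r j‖ * ‖S 0 i‖ ≤ C * ε := by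
  classical
  cases nonempty_fintype B
  rcases isEmpty_or_nonempty B with hB | hB
  · exact ⟨1, one_pos, 1, one_pos, fun S _ h0 _ => (h0 (Subsingleton.elim _ _)).elim⟩
  obtain ⟨D, hD, hstar⟩ := d3_star W w hspan hconst
  obtain ⟨im, him⟩ := Finite.exists_min fun i => ‖w 0 i‖
  obtain ⟨iM, hiM⟩ := Finite.exists_max fun i => ‖w 0 i‖
  set m := ‖w 0 im‖ with hm
  set M := ‖w 0 iM‖ with hM
  have hm0 : 0 < m := norm_pos_iff.2 (hw0 im)
  have hM0 : 0 < M := norm_pos_iff.2 (hw0 iM)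
  refine ⟨1 / (4 * D), by positivity, 2 * M / m + 4 * D * M, by positivity, fun S hS h0 hη => ?_⟩
  set y : B → ℚ_[p] := fun i => S 0 i / w 0 i with hy
  have hyS : ∀ i, S 0 i = y i * w 0 i := fun i => (div_mul_cancel₀ _ (hw0 i)).symm
  have hSy : ∀ i, ‖S 0 i‖ = ‖y i‖ * ‖w 0 i‖ := fun i => by rw [hyS i, norm_mul]
  have hyk : ∀ k i, ‖S k i - y i * w k i‖ ≤ 1 / (4 * D) * ‖y i‖ := by
    intro k i
    have hp : 0 < ‖w 0 i‖ := norm_pos_iff.2 (hw0 i)
    have h1 := hη k i
    have e : S k i * w 0 i - w k i * S 0 i = (S k i - y i * w k i) * w 0 i := by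
      rw [hyS i]
      ring
    rw [e, norm_mul, hSy i] at h1
    refine le_of_mul_le_mul_right ?_ hp
    calc _ ≤ _ := h1
      _ = _ := by ring
  obtain ⟨i1, hi1⟩ := Finite.exists_max fun i => ‖y i‖
  set Y := ‖y i1‖ with hY
  have hY0 : 0 < Y := by
    refine norm_pos_iff.2 fun h => h0 ?_
    funext i
    have h2 : ‖y i‖ ≤ 0 := by
      have := hi1 i
      rwa [hY, h, norm_zero] at this
    have h3 : y i = 0 := norm_le_zero_iff.1 h2
    rw [hyS i, h3, zero_mul]
    rfl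
  have hlow : ∀ i, Y / 2 ≤ ‖y i‖ := by
    intro i
    have h1 := hstar y (1 / (4 * D) * Y) (fun k => ⟨S k, hS k, fun i => by
      rw [norm_sub_rev]
      refine (hyk k i).trans ?_
      have := hi1 i
      gcongr⟩) i1 i
    have e : D * (1 / (4 * D) * Y) = Y / 4 := by field_simp
    rw [e] at h1
    have h2 : ‖y i1‖ ≤ ‖y i1 - y i‖ + ‖y i‖ := by
      calc ‖y i1‖ = ‖(y i1 - y i) + y i‖ := by rw [sub_add_cancel]
        _ ≤ _ := norm_add_le _ _
    rw [← hY] at h2
    linarith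
  have hSup : ∀ i, ‖S 0 i‖ ≤ Y * M := fun i => by
    rw [hSy i]
    exact mul_le_mul (hi1 i) (hiM i) (norm_nonneg _) hY0.le
  refine ⟨fun i j => ?_, fun r T ε hT hr i j => ?_⟩
  · have h1 : Y / 2 * m ≤ ‖S 0 j‖ := by
      rw [hSy j]
      exact mul_le_mul (hlow j) (him j) hm0.le (norm_nonneg _)
    calc ‖S 0 i‖ ≤ Y * M := hSup i
      _ = 2 * M / m * (Y / 2 * m) := by field_simp
      _ ≤ 2 * M / m * ‖S 0 j‖ := by gcongr
      _ ≤ (2 * M / m + 4 * D * M) * ‖S 0 j‖ := by
          have : 0 ≤ 4 * D * M * ‖S 0 j‖ := by positivity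
          linarith
  · have hε : 0 ≤ ε := (norm_nonneg _).trans (hr 0 i)
    set r' : B → ℚ_[p] := fun l => r l - r j with hr'
    obtain ⟨i2, hi2⟩ := Finite.exists_max fun l => ‖r' l‖
    set R := ‖r' i2‖ with hR
    have hR0 : 0 ≤ R := norm_nonneg _
    have h1 := hstar (fun l => r' l * y l) (ε + R * (1 / (4 * D) * Y)) (fun k =>
      ⟨T k - r j • S k, W.sub_mem (hT k) (W.smul_mem _ (hS k)), fun l => by
        have e : r' l * y l * w k l - (T k - r j • S k) l
            = (r l * S k l - T k l) - r' l * (S k l - y l * w k l) := by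
          show (r l - r j) * y l * w k l - (T k l - r j * S k l) = _ - (r l - r j) * _
          ring
        rw [e]
        refine (norm_sub_le _ _).trans (add_le_add (hr k l) ?_)
        rw [norm_mul]
        refine mul_le_mul (hi2 l) ?_ (norm_nonneg _) hR0
        refine (hyk k l).trans ?_
        have := hi1 l
        gcongr⟩) i2 j
    have h2 : r' j = 0 := sub_self _
    have h3 : ‖r' i2 * y i2 - r' j * y j‖ = R * ‖y i2‖ := by
      rw [h2, zero_mul, sub_zero, norm_mul]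

    rw [h3] at h1
    have h4 : R * (Y / 2) ≤ R * ‖y i2‖ := by
      have := hlow i2
      gcongr
    have e : D * (ε + R * (1 / (4 * D) * Y)) = D * ε + R * Y / 4 := by
      field_simp
    rw [e] at h1
    have h5 : R * Y ≤ 4 * (D * ε) := by linarith
    have h6 : ‖r i - r j‖ ≤ R := hi2 i
    calc ‖r i - r j‖ * ‖S 0 i‖ ≤ R * (Y * M) := mul_le_mul h6 (hSup i) (norm_nonneg _) hR0
      _ = R * Y * M := by ring
      _ ≤ 4 * (D * ε) * M := by gcongr
      _ ≤ (2 * M / m + 4 * D * M) * ε := by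
          have : 0 ≤ 2 * M / m * ε := by positivity
          linarith

end Pool.Agent.H57U
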