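import Pool.Agent.Lib.H57U.Ctx
import Pool.Agent.Lib.H57U.G2

/-!
Chunk E1 (M). The set `Zs` is Diophantine: as `dioP_xSet`, `XSet.mem`, `XSet.of_multiple` in
H60.UDef.Subfield. `Zs z` iff there are `x₁, y₁, x', y'` with `y₁² = x₁³ + a x₁ + b`,
`MulRel a n x₁ y₁ x' y'` and `z * y' = x'`, `y' ≠ 0`:
* from right to left: `isAt_of_eqn` gives `P` with `IsAt P x₁ y₁`, `MulRel.sound` gives
  `IsAt ((n+1) P) x' y'`, so `(n+1) P ≠ 0` and `zc = x'/y' = z`.
* from left to right: `(n+1) P ≠ 0` so `P` has infinite order (`Ctx.not_torsion`), `MulRel.exists`,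
  `MulRel.sound`; `y' ≠ 0` because `InU` says `wc ≠ 0`.
(For `F = K = L` the map `algebraMap L L` is the identity: `Algebra.algebraMap_self`, `RingHom.id_apply`.)
-/

set_option autoImplicit false

open WeierstrassCurve WeierstrassCurve.Affine Module
open Pool.Agent.H60.UDef

namespace Pool.Agent.H57U

section

variable {p : ℕ} [Fact p.Prime] {L : Type} [Field L] [NumberField L] {a b : L}

theorem Ctx.Zs_iff (C : Ctx p L a b) [Nonempty (L →+* ℚ_[p])] (z : L) :
    C.Zs z ↔ ∃ x₁ y₁ x' y' : L, y₁ ^ 2 = x₁ ^ 3 + a * x₁ + b ∧ MulRel a C.n x₁ y₁ x' y' ∧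
      z * y' = x' ∧ y' ≠ 0 := by
  classical
  constructor
  · rintro ⟨P, hP, rfl⟩
    have hinf : ∀ k : ℕ, 0 < k → k • P ≠ 0 := fun k hk => C.not_torsion (P := P) (by
      convert hP) hk
    have hP0 : P ≠ 0 := by simpa using hinf 1 one_pos
    obtain ⟨x₁, y₁, h1⟩ := exists_isAt hP0
    obtain ⟨x', y', h2⟩ := MulRel.exists hinf h1 C.n
    have h3 := MulRel.sound h1 C.n h2
    have h4 : wc ((C.n + 1) • P) ≠ 0 := by
      obtain ⟨σ⟩ := (inferInstance : Nonempty (L →+* ℚ_[p]))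
      have h5 := (C.inU P σ).1
      rcases h5 with h5 | h5
      · exact absurd (by convert h5) hP
      · convert h5
    have hy' : y' ≠ 0 := by
      intro h0
      rw [wc_isAt h3, h0, inv_zero] at h4
      exact h4 rfl
    refine ⟨x₁, y₁, x', y', ?_, ?_, ?_, hy'⟩
    · simpa using h1.eqn
    · simpa using h2
    · have h6 : zc ((C.n + 1) • P) = x' / y' := zc_isAt h3
      have h7 : zc ((C.n + 1) • P) * y' = x' := by
        rw [h6, div_mul_cancel₀ _ hy']
      convert h7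
  · rintro ⟨x₁, y₁, x', y', h1, h2, h3, h4⟩
    obtain ⟨P, hP⟩ := isAt_of_eqn (K := L) C.hab (x := x₁) (y := y₁) (by simpa using h1)
    have h5 := MulRel.sound hP C.n (x' := x') (y' := y') (by simpa using h2)
    refine ⟨P, ?_, ?_⟩
    · have := h5.ne_zero
      convert this
    · have h6 : zc ((C.n + 1) • P) = z := by
        rw [zc_isAt h5, ← h3, mul_div_cancel_right₀ _ h4]
      convert h6

theorem Ctx.dioP_Zs (C : Ctx p L a b) [Nonempty (L →+* ℚ_[p])] : DioP L C.Zs := by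
  have h1 : DioR L (fun v : Fin 1 ⊕ Fin 4 → L =>
      v (Sum.inr 1) ^ 2 = v (Sum.inr 0) ^ 3 + a * v (Sum.inr 0) + b) :=
    DioR.eq ((PF.var _).pow 2)
      ((((PF.var _).pow 3).add ((PF.const _).mul (PF.var _))).add (PF.const _))
  have h2 : DioR L (fun v : Fin 1 ⊕ Fin 4 → L =>
      MulRel a C.n (v (Sum.inr 0)) (v (Sum.inr 1)) (v (Sum.inr 2)) (v (Sum.inr 3))) := by
    have h3 := (dio_mulRel (K := L) C.n).dioR.subst
      (φ := (![fun _ => a, fun v => v (Sum.inr 0), fun v => v (Sum.inr 1),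
        fun v => v (Sum.inr 2), fun v => v (Sum.inr 3)] :
        Fin 5 → (Fin 1 ⊕ Fin 4 → L) → L)) (by
      intro b
      fin_cases b
      · exact PF.const a
      · exact PF.var _
      · exact PF.var _
      · exact PF.var _
      · exact PF.var _)
    exact h3
  have h3 : DioR L (fun v : Fin 1 ⊕ Fin 4 → L =>
      v (Sum.inl 0) * v (Sum.inr 3) = v (Sum.inr 2)) :=
    DioR.eq ((PF.var _).mul (PF.var _)) (PF.var _)
  have h4 : DioR L (fun v : Fin 1 ⊕ Fin 4 → L => v (Sum.inr 3) ≠ 0) := DioR.ne0 (PF.var _)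
  refine ((h1.and (h2.and (h3.and h4))).ex).dioP.congr fun s => ?_
  rw [C.Zs_iff]
  simp only [Sum.elim_inl, Sum.elim_inr]
  constructor
  · rintro ⟨w, h⟩
    exact ⟨w 0, w 1, w 2, w 3, h⟩
  · rintro ⟨a, b, c, d, h⟩
    exact ⟨![a, b, c, d], h⟩

theorem Ctx.Zs_ne_zero (C : Ctx p L a b) [Nonempty (L →+* ℚ_[p])] {z : L} (h : C.Zs z) :
    z ≠ 0 := by
  classical
  obtain ⟨P, hP, rfl⟩ := h
  obtain ⟨σ⟩ := (inferInstance : Nonempty (L →+* ℚ_[p]))
  exact zc_ne_zero (C.small σ) (C.inU P σ) hP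

end

end Pool.Agent.H57U
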