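import Pool.Agent.Lib.H57U.Ctx

/-!
Chunk E2 (M). The certificate is Diophantine.
* `dioR_le`: `ψ ≠ 0 ∧ ‖i φ‖ ≤ ‖i ψ‖` iff there is `e` with `ψ ≠ 0`, `φ = ψ e`, `‖i e‖ ≤ 1`
  (`dioP_val hs hg i`, `DioR.app`, `DioR.ex`, `DioR.ne0`, `DioR.eq`; model: `hcert` in
  H60.UDef.Subfield, `RankStable.dioP_aux`).
* all conditions of `Cert` are of this form: `‖φ‖ p^M0 ≤ ‖ψ‖` is `‖i φ‖ ≤ ‖i (p^M0 ψ)‖`
  (`‖p‖ = p⁻¹`), `‖φ‖ ≤ p^M1 ‖ψ‖²` is `‖i (p^M1 φ)‖ ≤ ‖i (ψ²)‖`, `‖z 0‖ p^M3 ≤ 1` is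
  `‖i (z 0)‖ ≤ ‖i (p^M3)‖`, `p^M2 ‖j (z 0)‖ ≤ ‖j (x - r)‖` is `‖j (z 0)‖ ≤ ‖j (p^M2 (x - r))‖`.
  `z 0 ≠ 0` by `hZ0`.
-/

set_option autoImplicit false

open WeierstrassCurve WeierstrassCurve.Affine Module
open Pool.Agent.H60.UDef

namespace Pool.Agent.H57U

section

variable {p l₁ l₂ : ℕ} [Fact p.Prime] {L : Type} [Field L] [NumberField L]

theorem dioR_le (hs : Splits p L) (hg : GoodPrime p l₁ l₂) (i : L →+* ℚ_[p]) {α : Type}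
    {φ ψ : (α → L) → L} (hφ : PF φ) (hψ : PF ψ) :
    DioR L (fun v => ψ v ≠ 0 ∧ ‖i (φ v)‖ ≤ ‖i (ψ v)‖) := by
  have h1 : DioR L (fun v : α ⊕ Fin 1 → L => ψ (v ∘ Sum.inl) ≠ 0) := DioR.ne0 (hψ.comp _)
  have h2 : DioR L (fun v : α ⊕ Fin 1 → L => φ (v ∘ Sum.inl) = ψ (v ∘ Sum.inl) * v (Sum.inr 0)) :=
    DioR.eq (hφ.comp _) ((hψ.comp _).mul (PF.var _))
  have h3 : DioR L (fun v : α ⊕ Fin 1 → L => ‖i (v (Sum.inr 0))‖ ≤ 1) :=
    DioR.app (dioP_val hs hg i) (PF.var _)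
  refine (h1.and (h2.and h3)).ex.congr fun v => ?_
  simp only [Sum.elim_comp_inl, Sum.elim_inr]
  constructor
  · rintro ⟨w, h4, h5, h6⟩
    refine ⟨h4, ?_⟩
    rw [h5, map_mul, norm_mul]
    exact mul_le_of_le_one_right (norm_nonneg _) h6
  · rintro ⟨h4, h5⟩
    refine ⟨fun _ => φ v / ψ v, h4, ?_, ?_⟩
    · rw [mul_div_cancel₀ _ h4]
    · rw [map_div₀, norm_div]
      exact div_le_one_of_le₀ h5 (norm_nonneg _)

theorem DioR.forall_finite {α ι : Type} [Finite ι] {P : ι → (α → L) → Prop}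
    (h : ∀ i, DioR L (P i)) : DioR L (fun v => ∀ i, P i v) := by
  classical
  haveI := Fintype.ofFinite ι
  have h1 : ∀ s : Finset ι, DioR L (fun v => ∀ i ∈ s, P i v) := by
    intro s
    induction s using Finset.induction_on with
    | empty => exact DioR.true.congr fun v => by simp
    | insert a s ha ih =>
      exact ((h a).and ih).congr fun v => by simp
  exact (h1 Finset.univ).congr fun v => by simp

theorem dioP_cert (hs : Splits p L) (hg : GoodPrime p l₁ l₂) {Z : L → Prop} (hZ : DioP L Z)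
    (hZ0 : ∀ z, Z z → z ≠ 0) (B : Set (L →+* ℚ_[p])) (i j : L →+* ℚ_[p]) {s : ℕ}
    (c : Fin (s + 1) → L) (M0 M1 M2 M3 : ℕ) : DioP L (Cert Z B i j c M0 M1 M2 M3) := by
  classical
  have hpr : (0 : ℝ) < p := by exact_mod_cast (Fact.out : p.Prime).pos
  have hp0 : (p : L) ≠ 0 := by exact_mod_cast (Fact.out : p.Prime).ne_zero
  have hnp : ∀ (v : L →+* ℚ_[p]) (M : ℕ), ‖v ((p : L) ^ M)‖ = ((p : ℝ) ^ M)⁻¹ := by
    intro v M
    rw [map_pow, map_natCast, norm_pow, Padic.norm_p, inv_pow]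
  -- variables: `x`, then `z`, `t`, `r`
  let V := Fin 1 ⊕ ((Fin (s + 1) ⊕ Fin (s + 1)) ⊕ Fin 1)
  let X : V := Sum.inl 0
  let zz : Fin (s + 1) → V := fun k => Sum.inr (Sum.inl (Sum.inl k))
  let tt : Fin (s + 1) → V := fun k => Sum.inr (Sum.inl (Sum.inr k))
  let rr : V := Sum.inr (Sum.inr 0)
  have a1 : DioR L (fun v : V → L => ∀ k, Z (v (zz k))) :=
    DioR.forall_finite fun k => DioR.app hZ (PF.var _)
  have a2 : DioR L (fun v : V → L => ∀ k, v (tt k) = 0 ∨ Z (v (tt k))) :=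
    DioR.forall_finite fun k => (DioR.eq (PF.var _) (PF.const 0)).or (DioR.app hZ (PF.var _))
  have b3 : DioR L (fun v : V → L => ∀ u : B, ∀ k, (p : L) ^ M0 * v (zz 0) ≠ 0 ∧
      ‖(u : L →+* ℚ_[p]) (v (zz k) - c k * v (zz 0))‖
        ≤ ‖(u : L →+* ℚ_[p]) ((p : L) ^ M0 * v (zz 0))‖) :=
    DioR.forall_finite fun u => DioR.forall_finite fun k =>
      dioR_le hs hg u ((PF.var _).sub ((PF.const _).mul (PF.var _))) ((PF.const _).mul (PF.var _))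
  have b4 : DioR L (fun v : V → L => ∀ u : B, ∀ k, v (zz 0) ^ 2 ≠ 0 ∧
      ‖(u : L →+* ℚ_[p]) ((p : L) ^ M1 * (v rr * v (zz k) - v (tt k)))‖
        ≤ ‖(u : L →+* ℚ_[p]) (v (zz 0) ^ 2)‖) :=
    DioR.forall_finite fun u => DioR.forall_finite fun k =>
      dioR_le hs hg u ((PF.const _).mul (((PF.var _).mul (PF.var _)).sub (PF.var _)))
        ((PF.var _).pow 2)
  have b5 : DioR L (fun v : V → L => ∀ u : B, (p : L) ^ M3 ≠ 0 ∧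
      ‖(u : L →+* ℚ_[p]) (v (zz 0))‖ ≤ ‖(u : L →+* ℚ_[p]) ((p : L) ^ M3)‖) :=
    DioR.forall_finite fun u => dioR_le hs hg u (PF.var _) (PF.const _)
  have b6 : DioR L (fun v : V → L => ∀ u : B, (1 : L) ≠ 0 ∧
      ‖(u : L →+* ℚ_[p]) (v rr)‖ ≤ ‖(u : L →+* ℚ_[p]) 1‖) :=
    DioR.forall_finite fun u => dioR_le hs hg u (PF.var _) (PF.const _)
  have b7 : DioR L (fun v : V → L => v (zz 0) ≠ 0 ∧ ‖i (v X - v rr)‖ ≤ ‖i (v (zz 0))‖) :=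
    dioR_le hs hg i ((PF.var _).sub (PF.var _)) (PF.var _)
  have b8 : DioR L (fun v : V → L => (p : L) ^ M2 * (v X - v rr) ≠ 0 ∧
      ‖j (v (zz 0))‖ ≤ ‖j ((p : L) ^ M2 * (v X - v rr))‖) :=
    dioR_le hs hg j (PF.var _) ((PF.const _).mul ((PF.var _).sub (PF.var _)))
  refine (a1.and (a2.and (b3.and (b4.and (b5.and (b6.and (b7.and b8))))))).ex.dioP.congr
    fun x => ?_
  simp only [X, zz, tt, rr, Sum.elim_inl, Sum.elim_inr]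
  have hconv1 : ∀ (v : L →+* ℚ_[p]) (M : ℕ) (y z : L),
      ‖v y‖ ≤ ‖v ((p : L) ^ M * z)‖ ↔ ‖v y‖ * (p : ℝ) ^ M ≤ ‖v z‖ := by
    intro v M y z
    rw [map_mul, norm_mul, hnp, inv_mul_eq_div, le_div_iff₀ (by positivity)]
  have hconv2 : ∀ (v : L →+* ℚ_[p]) (M : ℕ) (y z : L),
      ‖v ((p : L) ^ M * y)‖ ≤ ‖v (z ^ 2)‖ ↔ ‖v y‖ ≤ (p : ℝ) ^ M * ‖v z‖ ^ 2 := by
    intro v M y z
    rw [map_mul, norm_mul, hnp, map_pow, norm_pow, inv_mul_le_iff₀ (by positivity)]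
  have hconv3 : ∀ (v : L →+* ℚ_[p]) (M : ℕ) (y : L),
      ‖v y‖ ≤ ‖v ((p : L) ^ M)‖ ↔ ‖v y‖ * (p : ℝ) ^ M ≤ 1 := by
    intro v M y
    rw [hnp, ← one_div, le_div_iff₀ (by positivity)]
  constructor
  · rintro ⟨w, h1, h2, h3, h4, h5, h6, h7, h8⟩
    refine ⟨fun k => w (Sum.inl (Sum.inl k)), fun k => w (Sum.inl (Sum.inr k)), w (Sum.inr 0),
      h1, h2, ?_, ?_, ?_, ?_, h7.2, ?_, ?_⟩
    · intro v hv k
      exact (hconv1 v M0 _ _).mp (h3 ⟨v, hv⟩ k).2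
    · intro v hv k
      exact (hconv2 v M1 _ _).mp (h4 ⟨v, hv⟩ k).2
    · intro v hv
      exact (hconv3 v M3 _).mp (h5 ⟨v, hv⟩).2
    · intro v hv
      have := (h6 ⟨v, hv⟩).2
      rwa [map_one, norm_one] at this
    · intro h9
      exact h8.1 (by rw [h9, sub_self, mul_zero])
    · have := (hconv1 j M2 _ _).mp h8.2
      rwa [mul_comm] at this
  · rintro ⟨z, t, r, h1, h2, h3, h4, h5, h6, h7, h8, h9⟩
    have hz0 : z 0 ≠ 0 := hZ0 _ (h1 0)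
    refine ⟨Sum.elim (Sum.elim z t) (fun _ => r), ?_⟩
    simp only [Sum.elim_inl, Sum.elim_inr]
    refine ⟨h1, h2, ?_, ?_, ?_, ?_, ⟨hz0, h7⟩, ?_, ?_⟩
    · intro u k
      exact ⟨mul_ne_zero (pow_ne_zero _ hp0) hz0, (hconv1 u M0 _ _).mpr (h3 u u.2 k)⟩
    · intro u k
      exact ⟨pow_ne_zero _ hz0, (hconv2 u M1 _ _).mpr (h4 u u.2 k)⟩
    · intro u
      exact ⟨pow_ne_zero _ hp0, (hconv3 u M3 _).mpr (h5 u u.2)⟩
    · intro u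
      refine ⟨one_ne_zero, ?_⟩
      rw [map_one, norm_one]
      exact h6 u u.2
    · exact mul_ne_zero (pow_ne_zero _ hp0) (sub_ne_zero.mpr h8)
    · rw [hconv1, mul_comm]
      exact h9

end

end Pool.Agent.H57U
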