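import Pool.Agent.Lib.H57U.G2

/-!
Chunk E3 (M). Completeness of the certificate. Write `w k = vec (Q k)`, all coordinates nonzero
(`vec_ne_zero`). Choose `M1` with `p * ‖w k v‖² ≤ p^M1 ‖w 0 v‖²` for all `v, k` (finitely many
embeddings). Given `M0, M2, M3, c, x`: for `N = p^e`, `e` large, put `z k = zc ((n+1) (N Q k))`,
choose `κ ∈ ℕ` with `‖i x - κ‖ ≤ ‖i (z 0)‖` (naturals are dense in `ℤ_p`: `‖i x‖ ≤ 1`, e.g.
`PadicInt.denseRange_natCast` / `PadicInt.appr`), `r = κ`, `t k = zc ((n+1) (κ N Q k))`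
(`= 0` if `κ = 0`, else `Zs`: `(n+1)(κ N Q k) ≠ 0` because its `vec` is `κ N w k ≠ 0`).
`vec_sub_zc`, `norm_vec`: `‖z k - N w k‖ ≤ p ‖N w k‖²`, `‖z k‖ = ‖N w k‖ = ‖N‖ ‖w k‖`, and the same
for `t k` and `κ N w k`. Then at every `v` (we write `|.|` for `‖v .‖`)
* `|z k - c k z 0| ≤ max (p |N w k|²) (|N| |w k - c k w 0|) (|c k| p |N w 0|²)`; the middle term is
  `≤ p^-M0 |N w 0|` by `hc`, the others also if `|N| = p^-e` is small.
* `|κ z k - t k| ≤ max (|κ| p |N w k|²) (p |κ N w k|²) ≤ p |N w k|² ≤ p^M1 |N w 0|²`.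
* `|z 0| p^M3 ≤ 1` for `e` large; `|κ| ≤ 1`.
* `|i x - κ| ≤ |i (z 0)|`, and for `e` large `|i x - κ| < |j x - i x|`, so
  `|j (x - κ)| = |(j x - i x) + (i x - κ)| = |j x - i x| ≥ p^M2 |j (z 0)|`, `x ≠ κ`.
-/

set_option autoImplicit false

open WeierstrassCurve WeierstrassCurve.Affine Module
open Pool.Agent.H60.UDef

namespace Pool.Agent.H57U

section

variable {p : ℕ} [Fact p.Prime] {L : Type} [Field L] [NumberField L] {a b : L}

open scoped Classical in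
theorem Ctx.complete (C : Ctx p L a b) (B : Set (L →+* ℚ_[p])) {s : ℕ}
    (Q : Fin (s + 1) → ((shortW a b)⁄L).Point) (hQ : ∀ k, (C.n + 1) • Q k ≠ 0) :
    ∃ M1 : ℕ, ∀ (M0 M2 M3 : ℕ) (c : Fin (s + 1) → L),
      (∀ v ∈ B, ∀ k, ‖C.vec (Q k) v - v (c k) * C.vec (Q 0) v‖ * (p : ℝ) ^ M0
        ≤ ‖C.vec (Q 0) v‖) →
      ∀ (i j : L →+* ℚ_[p]) (x : L), ‖i x‖ ≤ 1 → i x ≠ j x → Cert C.Zs B i j c M0 M1 M2 M3 x := by
  classical
  have hp1 : (1 : ℝ) < p := by exact_mod_cast (Fact.out : p.Prime).one_lt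
  have hp0 : (0 : ℝ) < p := by linarith
  have hnp : ‖(p : ℚ_[p])‖ = (p : ℝ)⁻¹ := Padic.norm_p
  set w : Fin (s + 1) → (L →+* ℚ_[p]) → ℚ_[p] := fun k => C.vec (Q k) with hw
  have hw0 : ∀ k v, w k v ≠ 0 := fun k v => C.vec_ne_zero (hQ k) v
  have hwp : ∀ k v, 0 < ‖w k v‖ := fun k v => norm_pos_iff.2 (hw0 k v)
  obtain ⟨M1, hM1⟩ : ∃ M1 : ℕ, ∀ k v, p * ‖w k v‖ ^ 2 ≤ (p : ℝ) ^ M1 * ‖w 0 v‖ ^ 2 := by
    have h1 : ∀ k v, ∀ᶠ M : ℕ in Filter.atTop, p * ‖w k v‖ ^ 2 ≤ (p : ℝ) ^ M * ‖w 0 v‖ ^ 2 := by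
      intro k v
      have h2 : 0 < ‖w 0 v‖ ^ 2 := pow_pos (hwp 0 v) 2
      have h3 := (tendsto_pow_atTop_atTop_of_one_lt hp1).eventually_ge_atTop
        (p * ‖w k v‖ ^ 2 / ‖w 0 v‖ ^ 2)
      filter_upwards [h3] with M hM
      rwa [div_le_iff₀ h2] at hM
    have h4 : ∀ᶠ M : ℕ in Filter.atTop, ∀ k v, p * ‖w k v‖ ^ 2 ≤ (p : ℝ) ^ M * ‖w 0 v‖ ^ 2 :=
      Filter.eventually_all.2 fun k => Filter.eventually_all.2 fun v => h1 k v
    exact h4.exists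
  refine ⟨M1, fun M0 M2 M3 c hc i j x hix hij => ?_⟩
  have ev : ∀ c d : ℝ, 0 < d → ∀ᶠ e : ℕ in Filter.atTop, ((p : ℝ)⁻¹) ^ e * c < d := by
    intro c d hd
    have h1 := (tendsto_pow_atTop_nhds_zero_of_lt_one (r := (p : ℝ)⁻¹) (by positivity)
      (inv_lt_one_of_one_lt₀ hp1)).mul_const c
    rw [zero_mul] at h1
    exact h1.eventually_lt_const hd
  have hji : 0 < ‖j x - i x‖ := norm_pos_iff.2 (sub_ne_zero.2 (Ne.symm hij))
  have e1 : ∀ᶠ e : ℕ in Filter.atTop, ∀ k v,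
      ((p : ℝ)⁻¹) ^ e * (p * ‖w k v‖ ^ 2 * (p : ℝ) ^ M0) < ‖w 0 v‖ :=
    Filter.eventually_all.2 fun k => Filter.eventually_all.2 fun v => ev _ _ (hwp 0 v)
  have e2 : ∀ᶠ e : ℕ in Filter.atTop, ∀ (k : Fin (s + 1)) (v : L →+* ℚ_[p]),
      ((p : ℝ)⁻¹) ^ e * (‖v (c k)‖ * (p * ‖w 0 v‖ ^ 2) * (p : ℝ) ^ M0) < ‖w 0 v‖ :=
    Filter.eventually_all.2 fun k => Filter.eventually_all.2 fun v => ev _ _ (hwp 0 v)
  have e3 : ∀ᶠ e : ℕ in Filter.atTop, ∀ v : L →+* ℚ_[p],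
      ((p : ℝ)⁻¹) ^ e * (‖w 0 v‖ * (p : ℝ) ^ M3) < 1 :=
    Filter.eventually_all.2 fun v => ev _ _ one_pos
  obtain ⟨e, ⟨⟨h1, h2⟩, h3⟩, h4, h5⟩ := (((e1.and e2).and e3).and
    ((ev (‖w 0 i‖) _ hji).and (ev ((p : ℝ) ^ M2 * ‖w 0 j‖) _ hji))).exists
  set N : ℕ := p ^ e with hN
  set θ : ℝ := ((p : ℝ)⁻¹) ^ e with hθ
  have hθ0 : 0 < θ := by positivity
  have hNθ : ‖((N : ℕ) : ℚ_[p])‖ = θ := by
    rw [hN, Nat.cast_pow, norm_pow, hnp]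
  have hvec : ∀ k v, C.vec (N • Q k) v = (N : ℚ_[p]) * w k v := by
    intro k v
    rw [C.vec_nsmul]
    rfl
  have hnv : ∀ k v, ‖C.vec (N • Q k) v‖ = θ * ‖w k v‖ := by
    intro k v
    rw [hvec, norm_mul, hNθ]
  set z : Fin (s + 1) → L := fun k => zc ((C.n + 1) • (N • Q k)) with hz
  have hzn : ∀ k v, ‖v (z k)‖ = θ * ‖w k v‖ := by
    intro k v
    rw [← hnv k v, C.norm_vec]
  have hzs : ∀ k (v : L →+* ℚ_[p]), ‖v (z k) - (N : ℚ_[p]) * w k v‖ ≤ p * (θ * ‖w k v‖) ^ 2 := by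
    intro k v
    have := C.vec_sub_zc (N • Q k) v
    rw [hnv k v, hvec k v, norm_sub_rev] at this
    exact this
  obtain ⟨κ, hκ⟩ : ∃ κ : ℕ, ‖i x - κ‖ < ‖i (z 0)‖ := by
    have hpos : 0 < ‖i (z 0)‖ := by
      rw [hzn]
      exact mul_pos hθ0 (hwp 0 i)
    obtain ⟨κ, hκ⟩ := (PadicInt.denseRange_natCast (p := p)).exists_dist_lt
      (⟨i x, hix⟩ : ℤ_[p]) hpos
    refine ⟨κ, ?_⟩
    rw [dist_eq_norm, PadicInt.norm_def] at hκ
    simpa using hκ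
  have hκ1 : ‖(κ : ℚ_[p])‖ ≤ 1 := by
    have := Padic.norm_int_le_one (p := p) (κ : ℤ)
    simpa using this
  set t : Fin (s + 1) → L := fun k => zc ((C.n + 1) • (κ • (N • Q k))) with ht
  have htn : ∀ k (v : L →+* ℚ_[p]), ‖(κ : ℚ_[p]) * ((N : ℚ_[p]) * w k v) - v (t k)‖
      ≤ p * (θ * ‖w k v‖) ^ 2 := by
    intro k v
    have h6 := C.vec_sub_zc (κ • (N • Q k)) v
    have h7 : C.vec (κ • (N • Q k)) v = (κ : ℚ_[p]) * ((N : ℚ_[p]) * w k v) := by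
      rw [C.vec_nsmul]
      show (κ : ℚ_[p]) * C.vec (N • Q k) v = _
      rw [hvec]
    rw [h7] at h6
    refine h6.trans ?_
    rw [norm_mul, norm_mul, hNθ]
    have h8 : ‖(κ : ℚ_[p])‖ * (θ * ‖w k v‖) ≤ 1 * (θ * ‖w k v‖) := by gcongr
    rw [one_mul] at h8
    gcongr
  have hna : ∀ a b : ℚ_[p], ‖a + b‖ ≤ max ‖a‖ ‖b‖ := fun a b => Padic.nonarchimedean a b
  have hjκ : ‖j x - κ‖ = ‖j x - i x‖ := by
    have h6 : ‖i x - κ‖ < ‖j x - i x‖ := by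
      refine hκ.trans ?_
      rw [hzn]
      exact h4
    have h7 : j x - κ = (j x - i x) + (i x - κ) := by ring
    refine le_antisymm ?_ ?_
    · rw [h7]
      exact (hna _ _).trans (max_le le_rfl h6.le)
    · by_contra hcon
      push Not at hcon
      have h8 : j x - i x = (j x - κ) + -(i x - κ) := by ring
      have h9 := hna (j x - κ) (-(i x - κ))
      rw [← h8, norm_neg] at h9
      exact absurd h9 (not_le.2 (max_lt hcon h6))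
  refine ⟨z, t, (κ : L), fun k => ?_, fun k => ?_, fun v hv k => ?_, fun v hv k => ?_,
    fun v hv => ?_, fun v hv => ?_, ?_, ?_, ?_⟩
  · refine ⟨N • Q k, fun h => ?_, rfl⟩
    have h6 := hzn k i
    rw [hz] at h6
    simp only at h6
    rw [h, zc_zero, map_zero, norm_zero] at h6
    exact absurd h6.symm (mul_pos hθ0 (hwp k i)).ne'
  · by_cases h : (C.n + 1) • (κ • (N • Q k)) = 0
    · left
      rw [ht]
      simp only
      rw [h, zc_zero]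
    · exact Or.inr ⟨_, h, rfl⟩
  · rw [map_sub, map_mul, hzn 0 v]
    have h0 : 0 < (p : ℝ) ^ M0 := by positivity
    have h6 : v (z k) - v (c k) * v (z 0) = ((v (z k) - (N : ℚ_[p]) * w k v)
        + -(v (c k) * (v (z 0) - (N : ℚ_[p]) * w 0 v)))
        + (N : ℚ_[p]) * (w k v - v (c k) * w 0 v) := by ring
    rw [h6]
    rw [← le_div_iff₀ h0]
    refine (hna _ _).trans (max_le ((hna _ _).trans (max_le ?_ ?_)) ?_)
    · rw [le_div_iff₀ h0]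
      calc _ ≤ p * (θ * ‖w k v‖) ^ 2 * (p : ℝ) ^ M0 := by
            have := hzs k v
            gcongr
        _ = θ * (θ * (p * ‖w k v‖ ^ 2 * (p : ℝ) ^ M0)) := by ring
        _ ≤ θ * ‖w 0 v‖ := by
            have := (h1 k v).le
            gcongr
    · rw [le_div_iff₀ h0, norm_neg, norm_mul]
      calc _ ≤ ‖v (c k)‖ * (p * (θ * ‖w 0 v‖) ^ 2) * (p : ℝ) ^ M0 := by
            have := hzs 0 v
            gcongr
        _ = θ * (θ * (‖v (c k)‖ * (p * ‖w 0 v‖ ^ 2) * (p : ℝ) ^ M0)) := by ring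
        _ ≤ θ * ‖w 0 v‖ := by
            have := (h2 k v).le
            gcongr
    · rw [le_div_iff₀ h0, norm_mul, hNθ, mul_assoc]
      have := hc v hv k
      gcongr
  · rw [map_sub, map_mul, map_natCast, hzn 0 v]
    have h6 : (κ : ℚ_[p]) * v (z k) - v (t k) = κ * (v (z k) - (N : ℚ_[p]) * w k v)
        + (κ * ((N : ℚ_[p]) * w k v) - v (t k)) := by ring
    have h7 : p * (θ * ‖w k v‖) ^ 2 ≤ (p : ℝ) ^ M1 * (θ * ‖w 0 v‖) ^ 2 := by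
      calc _ = θ ^ 2 * (p * ‖w k v‖ ^ 2) := by ring
        _ ≤ θ ^ 2 * ((p : ℝ) ^ M1 * ‖w 0 v‖ ^ 2) := by
            have := hM1 k v
            gcongr
        _ = _ := by ring
    rw [h6]
    refine ((hna _ _).trans (max_le ?_ (htn k v))).trans h7
    rw [norm_mul]
    calc _ ≤ 1 * (p * (θ * ‖w k v‖) ^ 2) := by
          have := hzs k v
          gcongr
      _ = _ := one_mul _
  · rw [hzn 0 v, mul_assoc]
    exact (h3 v).le
  · rw [map_natCast]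
    exact hκ1
  · rw [map_sub, map_natCast]
    exact hκ.le
  · intro h
    apply hij
    rw [h, map_natCast, map_natCast]
  · rw [map_sub, map_natCast, hjκ, hzn 0 j]
    calc _ = θ * ((p : ℝ) ^ M2 * ‖w 0 j‖) := by ring
      _ ≤ _ := h5.le

end

end Pool.Agent.H57U
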