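import Pool.Agent.Lib.H57U.G2

/-!
Chunk E4 (M/L). Soundness of the certificate. `hlem` is the conclusion of `compact_lemma` (D3) for
`W_B = W.map (res B)` and `w k = res B (vec (Q k))`, with constants `η, C₀`.
Let `z, t, r` be a certificate: `z k = zc ((n+1) P k)`, `t k = 0` or `zc ((n+1) R k)`; put
`S k = res B (vec (P k))`, `T k = 0` or `res B (vec (R k))`, all in `W_B`. At every `v ∈ B` write
`|.|` for `‖v .‖`. `norm_vec`, `vec_sub_zc`: `|S k| = |z k|`, `|S k - z k| ≤ p |z k|²`, same for `T`.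
Let `A = max_{k, v} ‖w k v‖`, `a₀ = min_v ‖w 0 v‖ > 0`; `c k = w k / w 0` up to `p^-M0`, so
`|c k| ≤ A/a₀ + 1 =: A₁`, and `|z k| ≤ max (|c k z 0|) (p^-M0 |z 0|) ≤ A₁ |z 0|`.
* `S k w 0 - w k S 0 = (S k - z k) w 0 + (z k - c k z 0) w 0 + (c k w 0 - w k) z 0 + w k (z 0 - S 0)`,
  norm `≤ |z 0| max (p A₁² |z 0| A) (p^-M0 A) (p^-M0 A) (A p |z 0|) ≤ η |z 0| = η |S 0|` if `M0` and
  `M3` are large (`|z 0| ≤ p^-M3`). This fixes `M0, M3` (depending on `η, A, A₁` only).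
* `S 0 ≠ 0` (`vec_ne_zero`).
* `|t k| ≤ max (|r z k|) (p^M1 |z 0|²) ≤ (A₁ + p^M1) |z 0|` (`|z 0| ≤ 1`), so
  `|r S k - T k| ≤ max (p |z k|²) (p^M1 |z 0|²) (p |t k|²) ≤ A₂ |z 0|²`, `A₂ = p (A₁ + p^M1)²`.
* by the first part of `hlem`: `|z 0|` at any place of `B` is `≤ C₀` times that at any other; so with
  `m = |z 0|` at `j`: `‖r v S k v - T k v‖ ≤ ε := A₂ C₀² m²` for all `v ∈ B`, and the second part
  gives `‖i r - j r‖ ‖S 0 i‖ ≤ C₀ ε`; since `‖S 0 i‖ ≥ m / C₀`: `‖i r - j r‖ ≤ C₀² A₂ C₀² m`.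
* if `i x = j x` then `‖j (x - r)‖ ≤ max (‖i (x - r)‖) (‖i r - j r‖) ≤ (C₀ + C₀⁴ A₂) m < p^M2 m` for
  `M2` large: contradiction with the last condition (`m > 0`).
-/

set_option autoImplicit false

open WeierstrassCurve WeierstrassCurve.Affine Module
open Pool.Agent.H60.UDef

namespace Pool.Agent.H57U

theorem e4_abs {p : ℕ} [Fact p.Prime] {ι : Type} [Finite ι] (W : Submodule ℚ_[p] (ι → ℚ_[p]))
    {s : ℕ} (w : Fin (s + 1) → ι → ℚ_[p]) (hw0 : ∀ i, w 0 i ≠ 0)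
    (hlem : ∃ η : ℝ, 0 < η ∧ ∃ C₀ : ℝ, 0 < C₀ ∧ ∀ S : Fin (s + 1) → (ι → ℚ_[p]),
      (∀ k, S k ∈ W) → S 0 ≠ 0 →
      (∀ k i, ‖S k i * w 0 i - w k i * S 0 i‖ ≤ η * ‖S 0 i‖) →
      (∀ i j, ‖S 0 i‖ ≤ C₀ * ‖S 0 j‖) ∧
      ∀ (r : ι → ℚ_[p]) (T : Fin (s + 1) → (ι → ℚ_[p])) (ε : ℝ), (∀ k, T k ∈ W) →
        (∀ k i, ‖r i * S k i - T k i‖ ≤ ε) → ∀ i j, ‖r i - r j‖ * ‖S 0 i‖ ≤ C₀ * ε) :
    ∃ M0 M3 : ℕ, ∀ M1 : ℕ, ∃ D : ℝ, 0 < D ∧
      ∀ (c z t S T : Fin (s + 1) → ι → ℚ_[p]) (r : ι → ℚ_[p]),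
        (∀ k i, ‖w k i - c k i * w 0 i‖ * (p : ℝ) ^ M0 ≤ ‖w 0 i‖) →
        (∀ k, S k ∈ W) → (∀ k, T k ∈ W) → (∀ k i, ‖S k i‖ = ‖z k i‖) →
        (∀ k i, ‖S k i - z k i‖ ≤ p * ‖z k i‖ ^ 2) → (∀ k i, ‖T k i - t k i‖ ≤ p * ‖t k i‖ ^ 2) →
        (∀ i, S 0 i ≠ 0) →
        (∀ k i, ‖z k i - c k i * z 0 i‖ * (p : ℝ) ^ M0 ≤ ‖z 0 i‖) →
        (∀ k i, ‖r i * z k i - t k i‖ ≤ (p : ℝ) ^ M1 * ‖z 0 i‖ ^ 2) →
        (∀ i, ‖z 0 i‖ * (p : ℝ) ^ M3 ≤ 1) → (∀ i, ‖r i‖ ≤ 1) →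
        ∀ i j, ‖z 0 i‖ ≤ D * ‖z 0 j‖ ∧ ‖r i - r j‖ ≤ D * ‖z 0 j‖ := by
  classical
  have hp1 : (1 : ℝ) < p := by exact_mod_cast (Fact.out : p.Prime).one_lt
  have hp0 : (0 : ℝ) < p := by linarith
  cases nonempty_fintype ι
  rcases isEmpty_or_nonempty ι with hB | hB
  · exact ⟨0, 0, fun _ => ⟨1, one_pos, fun _ _ _ _ _ _ _ _ _ _ _ _ _ _ _ _ _ i => hB.elim i⟩⟩
  obtain ⟨η, hη, C₀, hC₀, hl⟩ := hlem
  obtain ⟨im, him⟩ := Finite.exists_min fun i => ‖w 0 i‖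
  set a₀ := ‖w 0 im‖ with ha₀
  have ha0 : 0 < a₀ := norm_pos_iff.2 (hw0 im)
  obtain ⟨A, hA1, hA⟩ : ∃ A : ℝ, 1 ≤ A ∧ ∀ k i, ‖w k i‖ ≤ A := by
    obtain ⟨x, hx⟩ := Finite.exists_max fun x : Fin (s + 1) × ι => ‖w x.1 x.2‖
    exact ⟨max 1 ‖w x.1 x.2‖, le_max_left _ _, fun k i => (hx (k, i)).trans (le_max_right _ _)⟩
  have hA0 : 0 < A := by linarith
  set A₁ : ℝ := A / a₀ + 2 with hA₁
  have hA₁0 : 1 ≤ A₁ := by
    have : 0 < A / a₀ := by positivity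
    linarith
  obtain ⟨M0, hM0⟩ := pow_unbounded_of_one_lt (4 * A / η) hp1
  obtain ⟨M3, hM3⟩ := pow_unbounded_of_one_lt (2 * A * p * (A₁ ^ 2 + 1) / η) hp1
  refine ⟨M0, M3, fun M1 => ?_⟩
  set A₂ : ℝ := p * A₁ ^ 2 + (p : ℝ) ^ M1 + p * (A₁ + (p : ℝ) ^ M1) ^ 2 with hA₂
  have hA₂0 : 0 < A₂ := by positivity
  refine ⟨C₀ + C₀ ^ 4 * A₂, by positivity, ?_⟩
  intro c z t S T r hc hS hT hSz hSz' hTt hS0 hzc hrz hz1 hr1 i j
  have hpM0 : 1 ≤ (p : ℝ) ^ M0 := one_le_pow₀ hp1.le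
  have hpM3 : 1 ≤ (p : ℝ) ^ M3 := one_le_pow₀ hp1.le
  have hcb : ∀ k v, ‖c k v‖ ≤ A / a₀ + 1 := by
    intro k v
    have h1 : ‖w k v - c k v * w 0 v‖ ≤ ‖w 0 v‖ := by
      have := hc k v
      nlinarith [norm_nonneg (w k v - c k v * w 0 v)]
    have h2 : ‖c k v‖ * ‖w 0 v‖ ≤ A + ‖w 0 v‖ := by
      rw [← norm_mul]
      calc ‖c k v * w 0 v‖ = ‖w k v - (w k v - c k v * w 0 v)‖ := by congr 1; ring
        _ ≤ ‖w k v‖ + ‖w k v - c k v * w 0 v‖ := norm_sub_le _ _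
        _ ≤ A + ‖w 0 v‖ := add_le_add (hA k v) h1
    have h3 : a₀ ≤ ‖w 0 v‖ := him v
    have h4 : 0 < ‖w 0 v‖ := lt_of_lt_of_le ha0 h3
    have h5 : A ≤ A / a₀ * ‖w 0 v‖ := by
      calc A = A / a₀ * a₀ := by field_simp
        _ ≤ _ := by gcongr
    have h6 : ‖c k v‖ * ‖w 0 v‖ ≤ (A / a₀ + 1) * ‖w 0 v‖ := by linarith
    exact le_of_mul_le_mul_right h6 h4
  have hzk : ∀ k v, ‖z k v‖ ≤ A₁ * ‖z 0 v‖ := by
    intro k v
    have h1 : ‖z k v - c k v * z 0 v‖ ≤ ‖z 0 v‖ := by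
      have := hzc k v
      nlinarith [norm_nonneg (z k v - c k v * z 0 v)]
    calc ‖z k v‖ = ‖c k v * z 0 v + (z k v - c k v * z 0 v)‖ := by congr 1; ring
      _ ≤ ‖c k v * z 0 v‖ + ‖z k v - c k v * z 0 v‖ := norm_add_le _ _
      _ ≤ (A / a₀ + 1) * ‖z 0 v‖ + ‖z 0 v‖ := by
          rw [norm_mul]
          have := hcb k v
          gcongr
      _ = A₁ * ‖z 0 v‖ := by rw [hA₁]; ring
  have hz0le : ∀ v, ‖z 0 v‖ ≤ 1 := by
    intro v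
    have := hz1 v
    nlinarith [norm_nonneg (z 0 v)]
  have hmain : ∀ k v, ‖S k v * w 0 v - w k v * S 0 v‖ ≤ η * ‖S 0 v‖ := by
    intro k v
    set m := ‖z 0 v‖ with hm
    have hm0 : 0 ≤ m := norm_nonneg _
    have e : S k v * w 0 v - w k v * S 0 v = (S k v - z k v) * w 0 v
        + (z k v - c k v * z 0 v) * w 0 v + (c k v * w 0 v - w k v) * z 0 v
        + w k v * (z 0 v - S 0 v) := by ring
    have t1 : ‖(S k v - z k v) * w 0 v‖ ≤ p * (A₁ * m) ^ 2 * A := by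
      rw [norm_mul]
      refine mul_le_mul ((hSz' k v).trans ?_) (hA 0 v) (norm_nonneg _) (by positivity)
      have := hzk k v
      gcongr
    have t2 : ‖(z k v - c k v * z 0 v) * w 0 v‖ * (p : ℝ) ^ M0 ≤ m * A := by
      rw [norm_mul]
      calc _ = ‖z k v - c k v * z 0 v‖ * (p : ℝ) ^ M0 * ‖w 0 v‖ := by ring
        _ ≤ m * A := mul_le_mul (hzc k v) (hA 0 v) (norm_nonneg _) hm0
    have t3 : ‖(c k v * w 0 v - w k v) * z 0 v‖ * (p : ℝ) ^ M0 ≤ A * m := by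
      rw [norm_mul, norm_sub_rev]
      calc _ = ‖w k v - c k v * w 0 v‖ * (p : ℝ) ^ M0 * ‖z 0 v‖ := by ring
        _ ≤ A * m := by
            refine mul_le_mul ((hc k v).trans (hA 0 v)) le_rfl (norm_nonneg _) hA0.le
    have t4 : ‖w k v * (z 0 v - S 0 v)‖ ≤ A * (p * m ^ 2) := by
      rw [norm_mul, norm_sub_rev]
      exact mul_le_mul (hA k v) (hSz' 0 v) (norm_nonneg _) hA0.le
    have hsum : ‖S k v * w 0 v - w k v * S 0 v‖ ≤ ‖(S k v - z k v) * w 0 v‖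
        + ‖(z k v - c k v * z 0 v) * w 0 v‖ + ‖(c k v * w 0 v - w k v) * z 0 v‖
        + ‖w k v * (z 0 v - S 0 v)‖ := by
      rw [e]
      refine (norm_add_le _ _).trans (add_le_add ?_ le_rfl)
      refine (norm_add_le _ _).trans (add_le_add ?_ le_rfl)
      exact norm_add_le _ _
    have hq : 2 * (m * A) ≤ η / 2 * m * (p : ℝ) ^ M0 := by
      have h1 : 4 * A ≤ η * (p : ℝ) ^ M0 := by
        rw [div_lt_iff₀ hη] at hM0
        linarith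
      nlinarith
    have t23 : ‖(z k v - c k v * z 0 v) * w 0 v‖ + ‖(c k v * w 0 v - w k v) * z 0 v‖
        ≤ η / 2 * m := by
      have h0 : 0 < (p : ℝ) ^ M0 := by positivity
      refine le_of_mul_le_mul_right ?_ h0
      rw [add_mul]
      linarith
    have t14 : p * (A₁ * m) ^ 2 * A + A * (p * m ^ 2) ≤ η / 2 * m := by
      have h1 : 2 * A * p * (A₁ ^ 2 + 1) ≤ η * (p : ℝ) ^ M3 := by
        rw [div_lt_iff₀ hη] at hM3
        linarith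
      have h2 : m * (p : ℝ) ^ M3 ≤ 1 := hz1 v
      have h3 : 2 * A * p * (A₁ ^ 2 + 1) * m ≤ η := by
        calc _ ≤ η * (p : ℝ) ^ M3 * m := by gcongr
          _ = η * (m * (p : ℝ) ^ M3) := by ring
          _ ≤ η * 1 := by gcongr
          _ = η := mul_one _
      have h4 : 2 * A * p * (A₁ ^ 2 + 1) * m * m ≤ η * m := by gcongr
      have e2 : p * (A₁ * m) ^ 2 * A + A * (p * m ^ 2) = 2 * A * p * (A₁ ^ 2 + 1) * m * m / 2 := by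
        ring
      rw [e2]
      linarith
    rw [hSz 0 v]
    linarith
  have hS00 : S 0 ≠ 0 := fun h => hS0 i (by rw [h]; rfl)
  obtain ⟨l1, l2⟩ := hl S hS hS00 hmain
  have l1' : ∀ v v', ‖z 0 v‖ ≤ C₀ * ‖z 0 v'‖ := by
    intro v v'
    have := l1 v v'
    rwa [hSz 0 v, hSz 0 v'] at this
  set m := ‖z 0 j‖ with hm
  have hm0 : 0 < m := by
    rw [hm, ← hSz 0 j]
    exact norm_pos_iff.2 (hS0 j)
  have hst : ∀ k v, ‖r v * S k v - T k v‖ ≤ A₂ * ‖z 0 v‖ ^ 2 := by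
    intro k v
    set q := ‖z 0 v‖ with hq
    have hq0 : 0 ≤ q := norm_nonneg _
    have hq1 : q ≤ 1 := hz0le v
    have ht : ‖t k v‖ ≤ (A₁ + (p : ℝ) ^ M1) * q := by
      calc ‖t k v‖ = ‖r v * z k v - (r v * z k v - t k v)‖ := by congr 1; ring
        _ ≤ ‖r v * z k v‖ + ‖r v * z k v - t k v‖ := norm_sub_le _ _
        _ ≤ 1 * (A₁ * q) + (p : ℝ) ^ M1 * q ^ 2 := by
            refine add_le_add ?_ (hrz k v)
            rw [norm_mul]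
            exact mul_le_mul (hr1 v) (hzk k v) (norm_nonneg _) zero_le_one
        _ ≤ (A₁ + (p : ℝ) ^ M1) * q := by
            have h1 : (p : ℝ) ^ M1 * q ^ 2 ≤ (p : ℝ) ^ M1 * q := by
              have : q ^ 2 ≤ q := by nlinarith
              gcongr
            linarith
    have e : r v * S k v - T k v = r v * (S k v - z k v) + (r v * z k v - t k v)
        + (t k v - T k v) := by ring
    rw [e]
    have u1 : ‖r v * (S k v - z k v)‖ ≤ p * (A₁ * q) ^ 2 := by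
      rw [norm_mul]
      calc _ ≤ 1 * (p * (A₁ * q) ^ 2) := by
            refine mul_le_mul (hr1 v) ((hSz' k v).trans ?_) (norm_nonneg _) zero_le_one
            have := hzk k v
            gcongr
        _ = _ := one_mul _
    have u3 : ‖t k v - T k v‖ ≤ p * ((A₁ + (p : ℝ) ^ M1) * q) ^ 2 := by
      rw [norm_sub_rev]
      refine (hTt k v).trans ?_
      gcongr
    calc _ ≤ ‖r v * (S k v - z k v)‖ + ‖r v * z k v - t k v‖ + ‖t k v - T k v‖ :=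
          (norm_add_le _ _).trans (add_le_add (norm_add_le _ _) le_rfl)
      _ ≤ p * (A₁ * q) ^ 2 + (p : ℝ) ^ M1 * q ^ 2 + p * ((A₁ + (p : ℝ) ^ M1) * q) ^ 2 :=
          add_le_add (add_le_add u1 (hrz k v)) u3
      _ = A₂ * q ^ 2 := by rw [hA₂]; ring
  have hfin := l2 r T (A₂ * (C₀ * m) ^ 2) hT (fun k v => (hst k v).trans (by
    have := l1' v j
    gcongr)) i j
  have hSi : m ≤ C₀ * ‖S 0 i‖ := by
    have := l1 j i
    rwa [hSz 0 j] at this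
  have hri : ‖r i - r j‖ ≤ C₀ ^ 4 * A₂ * m := by
    have h0 : 0 ≤ ‖r i - r j‖ := norm_nonneg _
    have h1 : ‖r i - r j‖ * m ≤ C₀ ^ 4 * A₂ * m * m := by
      calc ‖r i - r j‖ * m ≤ ‖r i - r j‖ * (C₀ * ‖S 0 i‖) := by gcongr
        _ = C₀ * (‖r i - r j‖ * ‖S 0 i‖) := by ring
        _ ≤ C₀ * (C₀ * (A₂ * (C₀ * m) ^ 2)) := by gcongr
        _ = _ := by ring
    exact le_of_mul_le_mul_right h1 hm0
  refine ⟨(l1' i j).trans ?_, hri.trans ?_⟩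
  · have : 0 ≤ C₀ ^ 4 * A₂ * m := by positivity
    rw [add_mul]
    linarith
  · have : 0 ≤ C₀ * m := by positivity
    rw [add_mul]
    linarith

section

variable {p : ℕ} [Fact p.Prime] {L : Type} [Field L] [NumberField L] {a b : L}

open scoped Classical in
theorem Ctx.sound (C : Ctx p L a b) (B : Set (L →+* ℚ_[p])) {s : ℕ}
    (Q : Fin (s + 1) → ((shortW a b)⁄L).Point) (hQ : ∀ k, (C.n + 1) • Q k ≠ 0)
    (hlem : ∃ η : ℝ, 0 < η ∧ ∃ C₀ : ℝ, 0 < C₀ ∧ ∀ S : Fin (s + 1) → (B → ℚ_[p]),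
      (∀ k, S k ∈ C.W.map (res B)) → S 0 ≠ 0 →
      (∀ k i, ‖S k i * res B (C.vec (Q 0)) i - res B (C.vec (Q k)) i * S 0 i‖ ≤ η * ‖S 0 i‖) →
      (∀ i j, ‖S 0 i‖ ≤ C₀ * ‖S 0 j‖) ∧
      ∀ (r : B → ℚ_[p]) (T : Fin (s + 1) → (B → ℚ_[p])) (ε : ℝ),
        (∀ k, T k ∈ C.W.map (res B)) →
        (∀ k i, ‖r i * S k i - T k i‖ ≤ ε) → ∀ i j, ‖r i - r j‖ * ‖S 0 i‖ ≤ C₀ * ε) :
    ∃ M0 M3 : ℕ, ∀ M1 : ℕ, ∃ M2 : ℕ, ∀ c : Fin (s + 1) → L,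
      (∀ v ∈ B, ∀ k, ‖C.vec (Q k) v - v (c k) * C.vec (Q 0) v‖ * (p : ℝ) ^ M0
        ≤ ‖C.vec (Q 0) v‖) →
      ∀ i ∈ B, ∀ j ∈ B, ∀ x : L, Cert C.Zs B i j c M0 M1 M2 M3 x → i x ≠ j x := by
  classical
  have hp1 : (1 : ℝ) < p := by exact_mod_cast (Fact.out : p.Prime).one_lt
  obtain ⟨M0, M3, hM⟩ := e4_abs (ι := B) (C.W.map (res B)) (fun k => res B (C.vec (Q k)))
    (fun v => C.vec_ne_zero (hQ 0) v.1) hlem
  refine ⟨M0, M3, fun M1 => ?_⟩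
  obtain ⟨D, hD, hD'⟩ := hM M1
  obtain ⟨M2, hM2⟩ := pow_unbounded_of_one_lt (D + D) hp1
  refine ⟨M2, fun c hc i hi j hj x hcert hx => ?_⟩
  obtain ⟨z, t, r, hz, ht, h4, h5, h6, h7, h8, hxr, h9⟩ := hcert
  choose P hP0 hPz using hz
  have hT : ∀ k, ∃ T ∈ C.W.map (res B), ∀ v : B, ‖T v - v.1 (t k)‖ ≤ p * ‖v.1 (t k)‖ ^ 2 := by
    intro k
    rcases ht k with h | ⟨R, hR0, hRz⟩
    · refine ⟨0, Submodule.zero_mem _, fun v => ?_⟩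
      rw [h, map_zero]
      simp
    · refine ⟨res B (C.vec R), Submodule.mem_map_of_mem (Submodule.subset_span ⟨R, rfl⟩),
        fun v => ?_⟩
      have h1 := C.vec_sub_zc R v.1
      rw [C.norm_vec R v.1, hRz] at h1
      exact h1
  choose T hTW hTt using hT
  obtain ⟨g1, g2⟩ := hD' (fun k v => v.1 (c k)) (fun k v => v.1 (z k)) (fun k v => v.1 (t k))
    (fun k => res B (C.vec (P k))) T (fun v => v.1 r)
    (fun k v => hc v.1 v.2 k)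
    (fun k => Submodule.mem_map_of_mem (Submodule.subset_span ⟨P k, rfl⟩)) hTW
    (fun k v => by
      have h1 := C.norm_vec (P k) v.1
      rw [hPz] at h1
      exact h1)
    (fun k v => by
      have h1 := C.vec_sub_zc (P k) v.1
      rw [C.norm_vec (P k) v.1, hPz] at h1
      exact h1)
    hTt (fun v => C.vec_ne_zero (hP0 0) v.1)
    (fun k v => by
      have h1 := h4 v.1 v.2 k
      rw [map_sub, map_mul] at h1
      exact h1)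
    (fun k v => by
      have h1 := h5 v.1 v.2 k
      rw [map_sub, map_mul] at h1
      exact h1)
    (fun v => h6 v.1 v.2) (fun v => h7 v.1 v.2) ⟨i, hi⟩ ⟨j, hj⟩
  have hz0 : 0 < ‖j (z 0)‖ := by
    have h1 := C.norm_vec (P 0) j
    rw [hPz] at h1
    rw [← h1]
    exact norm_pos_iff.2 (C.vec_ne_zero (hP0 0) j)
  have e : j (x - r) = i (x - r) + (i r - j r) := by
    rw [map_sub, map_sub, ← hx]
    ring
  have hle : ‖j (x - r)‖ ≤ (D + D) * ‖j (z 0)‖ := by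
    rw [e]
    refine (norm_add_le _ _).trans ?_
    rw [add_mul]
    exact add_le_add (h8.trans g1) g2
  have : (p : ℝ) ^ M2 * ‖j (z 0)‖ ≤ (D + D) * ‖j (z 0)‖ := h9.trans hle
  have := le_of_mul_le_mul_right this hz0
  linarith

end

end Pool.Agent.H57U
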