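import Pool.Agent.Lib.H57U.B1

/-!
Chunk B2 (M). The logarithm. For `P` in the neighbourhood put `aₙ = z(pⁿ P) / pⁿ`. By `nsmul_bound`
(for `pⁿ P` and `k = p`) and `norm_pow_nsmul`:
`‖aₙ₊₁ - aₙ‖ = pⁿ⁺¹ ‖z(p · pⁿP) - p z(pⁿP)‖ ≤ pⁿ⁺¹ ‖z(pⁿP)‖² = p¹⁻ⁿ ‖z(P)‖² ≤ p ‖z(P)‖²`,
so `aₙ` is Cauchy (ultrametric or geometric series: `cauchySeq_of_le_geometric` also works, but the
final bound `p ‖z‖²` needs the ultrametric inequality: `‖aₙ - a₀‖ ≤ p ‖z‖²` by induction), the limit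
`lg P` satisfies `‖lg P - z(P)‖ ≤ p ‖z(P)‖²`, and `lg` is additive:
`‖aₙ(P + Q) - aₙ(P) - aₙ(Q)‖ ≤ pⁿ max(‖z(pⁿP)‖, ‖z(pⁿQ)‖)² ≤ p⁻ⁿ → 0` (`add_bound`).
Outside the neighbourhood put `lg P = 0`.
-/

set_option autoImplicit false

open WeierstrassCurve WeierstrassCurve.Affine Module
open Pool.Agent.H60.UDef

namespace Pool.Agent.H57U

section

variable {F : Type} [Field F] [DecidableEq F] {a b : F} {p : ℕ} [Fact p.Prime] {ρ : F →+* ℚ_[p]}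
  {δ : ℝ}

theorem b2_seq (hδ : Small ρ a b δ) {P : ((shortW a b)⁄F).Point} (hP : InU ρ δ P) :
    ∃ l : ℚ_[p], Filter.Tendsto (fun n : ℕ => ρ (zc (p ^ n • P)) / (p : ℚ_[p]) ^ n) Filter.atTop
      (nhds l) ∧ ‖l - ρ (zc P)‖ ≤ p * ‖ρ (zc P)‖ ^ 2 := by
  have hp1 : (1 : ℝ) < p := by exact_mod_cast (Fact.out : p.Prime).one_lt
  have hp0 : (0 : ℝ) < p := by linarith
  have hpq : (p : ℚ_[p]) ≠ 0 := by exact_mod_cast (Fact.out : p.Prime).ne_zero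
  have hnp : ‖(p : ℚ_[p])‖ = (p : ℝ)⁻¹ := Padic.norm_p
  set f : ℕ → ℚ_[p] := fun n : ℕ => ρ (zc (p ^ n • P)) / (p : ℚ_[p]) ^ n with hf
  have hf0 : f 0 = ρ (zc P) := by
    simp [hf]
  have hstep : ∀ n, ‖f (n + 1) - f n‖ ≤ p * ‖ρ (zc P)‖ ^ 2 * ((p : ℝ)⁻¹) ^ n := by
    intro n
    have hU := (nsmul_bound hδ hP (p ^ n)).1
    have h1 := (nsmul_bound hδ hU p).2.1
    have h2 := norm_pow_nsmul hδ hP n
    have e0 : p ^ (n + 1) • P = p • (p ^ n • P) := by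
      rw [pow_succ', mul_smul]
    have e : f (n + 1) - f n
        = (ρ (zc (p • (p ^ n • P))) - p * ρ (zc (p ^ n • P))) / (p : ℚ_[p]) ^ (n + 1) := by
      simp only [hf]
      rw [e0, pow_succ]
      field_simp
    rw [e, norm_div, norm_pow, hnp]
    rw [h2] at h1
    rw [div_le_iff₀ (by positivity)]
    refine h1.trans (le_of_eq ?_)
    have hpi : (p : ℝ) * (p : ℝ)⁻¹ = 1 := mul_inv_cancel₀ hp0.ne'
    calc _ = (((p : ℝ)⁻¹) ^ n) ^ 2 * ‖ρ (zc P)‖ ^ 2 * 1 := by ring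
      _ = (((p : ℝ)⁻¹) ^ n) ^ 2 * ‖ρ (zc P)‖ ^ 2 * ((p : ℝ) * (p : ℝ)⁻¹) := by rw [hpi]
      _ = _ := by ring
  have hcau : CauchySeq f := by
    refine cauchySeq_of_le_geometric ((p : ℝ)⁻¹) (p * ‖ρ (zc P)‖ ^ 2)
      (inv_lt_one_of_one_lt₀ hp1) fun n => ?_
    rw [dist_eq_norm, norm_sub_rev]
    exact hstep n
  obtain ⟨l, hl⟩ := cauchySeq_tendsto_of_complete hcau
  refine ⟨l, hl, ?_⟩
  have hb : ∀ n, ‖f n - ρ (zc P)‖ ≤ p * ‖ρ (zc P)‖ ^ 2 := by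
    intro n
    induction n with
    | zero =>
      rw [hf0, sub_self, norm_zero]
      positivity
    | succ n ih =>
      have e : f (n + 1) - ρ (zc P) = (f (n + 1) - f n) + (f n - ρ (zc P)) := by ring
      rw [e]
      refine (Padic.nonarchimedean _ _).trans (max_le ((hstep n).trans ?_) ih)
      have h1 : ((p : ℝ)⁻¹) ^ n ≤ 1 := pow_le_one₀ (by positivity) (inv_le_one_of_one_le₀ hp1.le)
      have h2 : 0 ≤ p * ‖ρ (zc P)‖ ^ 2 := by positivity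
      nlinarith
  exact le_of_tendsto (hl.sub_const _).norm (Filter.Eventually.of_forall hb)

theorem exists_log (hδ : Small ρ a b δ) :
    ∃ lg : ((shortW a b)⁄F).Point → ℚ_[p],
      (∀ P Q, InU ρ δ P → InU ρ δ Q → lg (P + Q) = lg P + lg Q) ∧
      ∀ P, InU ρ δ P → ‖lg P - ρ (zc P)‖ ≤ p * ‖ρ (zc P)‖ ^ 2 := by
  have hp1 : (1 : ℝ) < p := by exact_mod_cast (Fact.out : p.Prime).one_lt
  have hp0 : (0 : ℝ) < p := by linarith
  have hpq : (p : ℚ_[p]) ≠ 0 := by exact_mod_cast (Fact.out : p.Prime).ne_zero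
  have hnp : ‖(p : ℚ_[p])‖ = (p : ℝ)⁻¹ := Padic.norm_p
  have hex : ∀ P : ((shortW a b)⁄F).Point, ∃ l : ℚ_[p], InU ρ δ P →
      Filter.Tendsto (fun n : ℕ => ρ (zc (p ^ n • P)) / (p : ℚ_[p]) ^ n) Filter.atTop
        (nhds l) ∧ ‖l - ρ (zc P)‖ ≤ p * ‖ρ (zc P)‖ ^ 2 := by
    intro P
    by_cases h : InU ρ δ P
    · obtain ⟨l, hl⟩ := b2_seq hδ h
      exact ⟨l, fun _ => hl⟩
    · exact ⟨0, fun h' => (h h').elim⟩
  choose lg hlg using hex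
  refine ⟨lg, fun P Q hP hQ => ?_, fun P hP => (hlg P hP).2⟩
  have hPQ := (add_bound hδ hP hQ).1
  have t1 := (hlg P hP).1
  have t2 := (hlg Q hQ).1
  have t3 := (hlg (P + Q) hPQ).1
  have t4 := t3.sub (t1.add t2)
  have hz : Filter.Tendsto (fun n : ℕ => ρ (zc (p ^ n • (P + Q))) / (p : ℚ_[p]) ^ n
      - (ρ (zc (p ^ n • P)) / (p : ℚ_[p]) ^ n + ρ (zc (p ^ n • Q)) / (p : ℚ_[p]) ^ n))
      Filter.atTop (nhds 0) := by
    rw [tendsto_zero_iff_norm_tendsto_zero]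
    set M : ℝ := max ‖ρ (zc P)‖ ‖ρ (zc Q)‖ with hM
    have hM0 : 0 ≤ M := le_max_of_le_left (norm_nonneg _)
    refine squeeze_zero (fun _ => norm_nonneg _) (g := fun n : ℕ => M ^ 2 * ((p : ℝ)⁻¹) ^ n)
      (fun n => ?_) ?_
    · have hPn := (nsmul_bound hδ hP (p ^ n)).1
      have hQn := (nsmul_bound hδ hQ (p ^ n)).1
      have h1 := (add_bound hδ hPn hQn).2.1
      rw [norm_pow_nsmul hδ hP n, norm_pow_nsmul hδ hQ n, ← mul_max_of_nonneg _ _ (by positivity),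
        ← hM] at h1
      have e : ρ (zc (p ^ n • (P + Q))) / (p : ℚ_[p]) ^ n
          - (ρ (zc (p ^ n • P)) / (p : ℚ_[p]) ^ n + ρ (zc (p ^ n • Q)) / (p : ℚ_[p]) ^ n)
          = (ρ (zc (p ^ n • P + p ^ n • Q)) - ρ (zc (p ^ n • P)) - ρ (zc (p ^ n • Q)))
            / (p : ℚ_[p]) ^ n := by
        rw [smul_add]
        ring
      rw [e, norm_div, norm_pow, hnp, div_le_iff₀ (by positivity)]
      refine h1.trans (le_of_eq ?_)
      ring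
    · have := (tendsto_pow_atTop_nhds_zero_of_lt_one (r := (p : ℝ)⁻¹) (by positivity)
        (inv_lt_one_of_one_lt₀ hp1)).const_mul (M ^ 2)
      rwa [mul_zero] at this
  have := tendsto_nhds_unique t4 hz
  exact sub_eq_zero.1 this

end

end Pool.Agent.H57U
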