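import Pool.Agent.Lib.H57U.A6

/-!
Chunk B1 (S/M). Multiples: by induction on `k` from `add_bound`:
`‖z(kP)‖ ≤ ‖z(P)‖`, `‖z(kP) - k z(P)‖ ≤ ‖z(P)‖²`. For `k = p`: `‖z(P)‖² ≤ δ ‖z(P)‖ < p⁻¹ ‖z(P)‖`
(if `P ≠ 0`), so `‖z(pP)‖ = p⁻¹ ‖z(P)‖`; iterate.
-/

set_option autoImplicit false

open WeierstrassCurve WeierstrassCurve.Affine Module
open Pool.Agent.H60.UDef

namespace Pool.Agent.H57U

section

variable {F : Type} [Field F] [DecidableEq F] {a b : F} {p : ℕ} [Fact p.Prime] {ρ : F →+* ℚ_[p]}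
  {δ : ℝ}

theorem nsmul_bound (hδ : Small ρ a b δ) {P : ((shortW a b)⁄F).Point} (hP : InU ρ δ P) (k : ℕ) :
    InU ρ δ (k • P) ∧ ‖ρ (zc (k • P)) - k * ρ (zc P)‖ ≤ ‖ρ (zc P)‖ ^ 2 ∧
      ‖ρ (zc (k • P))‖ ≤ ‖ρ (zc P)‖ := by
  induction k with
  | zero =>
    refine ⟨?_, ?_, ?_⟩
    · rw [zero_smul]
      exact inU_zero hδ.pos
    · rw [zero_smul, zc_zero, map_zero, Nat.cast_zero, zero_mul, sub_zero, norm_zero]
      positivity
    · rw [zero_smul, zc_zero, map_zero, norm_zero]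
      positivity
  | succ k ih =>
    obtain ⟨h1, h2, h3⟩ := ih
    obtain ⟨a1, a2, a3⟩ := add_bound hδ h1 hP
    rw [max_eq_right h3] at a2 a3
    rw [add_smul, one_smul]
    refine ⟨a1, ?_, a3⟩
    have e : ρ (zc (k • P + P)) - ((k + 1 : ℕ) : ℚ_[p]) * ρ (zc P)
        = (ρ (zc (k • P + P)) - ρ (zc (k • P)) - ρ (zc P)) + (ρ (zc (k • P)) - k * ρ (zc P)) := by
      push_cast
      ring
    rw [e]
    exact (Padic.nonarchimedean _ _).trans (max_le a2 h2)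

theorem norm_pow_nsmul (hδ : Small ρ a b δ) {P : ((shortW a b)⁄F).Point} (hP : InU ρ δ P)
    (n : ℕ) : ‖ρ (zc (p ^ n • P))‖ = ((p : ℝ)⁻¹) ^ n * ‖ρ (zc P)‖ := by
  have hp1 : (1 : ℝ) < p := by exact_mod_cast (Fact.out : p.Prime).one_lt
  have hp0 : (0 : ℝ) < p := by linarith
  have hnp : ‖(p : ℚ_[p])‖ = (p : ℝ)⁻¹ := Padic.norm_p
  induction n with
  | zero => rw [pow_zero, pow_zero, one_smul, one_mul]
  | succ n ih =>
    have hQ := (nsmul_bound hδ hP (p ^ n)).1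
    set Q := p ^ n • P with hQdef
    have e0 : p ^ (n + 1) • P = p • Q := by
      rw [hQdef, pow_succ', mul_smul]
    obtain ⟨-, h2, h3⟩ := nsmul_bound hδ hQ p
    rw [e0, pow_succ', mul_assoc, ← ih]
    rcases eq_or_ne (ρ (zc Q)) 0 with h0 | h0
    · rw [h0, norm_zero] at h3 ⊢
      rw [mul_zero]
      exact le_antisymm h3 (norm_nonneg _)
    · have hz : 0 < ‖ρ (zc Q)‖ := norm_pos_iff.2 h0
      have h4 : ‖ρ (zc (p • Q)) + -(p * ρ (zc Q))‖ < ‖-((p : ℚ_[p]) * ρ (zc Q))‖ := by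
        rw [norm_neg, norm_mul, hnp, ← sub_eq_add_neg]
        refine h2.trans_lt ?_
        have h5 : ‖ρ (zc Q)‖ ≤ ((p : ℝ)⁻¹) ^ 2 := hQ.2.1.trans hδ.le
        have h6 : ((p : ℝ)⁻¹) ^ 2 < (p : ℝ)⁻¹ := by
          have h7 : (p : ℝ)⁻¹ < 1 := inv_lt_one_of_one_lt₀ hp1
          have h8 : 0 < (p : ℝ)⁻¹ := by positivity
          nlinarith
        nlinarith
      have h5 := Padic.norm_eq_of_norm_add_lt_right h4
      rw [h5, norm_neg, norm_mul, hnp]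

end

end Pool.Agent.H57U
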