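import Pool.Agent.Lib.H57U.A6
import Pool.Agent.Lib.H57U.B1

/-!
Chunk C1 (M). Every point has a positive multiple in the neighbourhood.
If `n • P = 0` for some `n > 0`: take it (`inU_zero`). Otherwise `unbounded_multiples_norm`
(H60.UDef.NormDensity; `ℚ_[p]` is a proper space, nontrivially normed, char zero) gives `n > 0`,
`IsAt (n • P) x y` with `‖ρ x‖ > M`; for `M` large `‖ρ (a x + b)‖ < ‖ρ x‖³`, so
`‖ρ y‖² = ‖ρ x‖³`, `y ≠ 0`, `‖ρ (x/y)‖ = ‖ρ x‖^(-1/2) ≤ δ`, `‖ρ (1/y)‖ = ‖ρ x‖^(-3/2) ≤ δ`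
(work with squares: `‖ρ (x/y)‖² = ‖ρ x‖⁻¹ ≤ M⁻¹ ≤ δ²`).
-/

set_option autoImplicit false

open WeierstrassCurve WeierstrassCurve.Affine Module
open Pool.Agent.H60.UDef

namespace Pool.Agent.H57U

section

variable {F : Type} [Field F] [DecidableEq F] {a b : F} {p : ℕ} [Fact p.Prime] {ρ : F →+* ℚ_[p]}
  {δ : ℝ}

theorem exists_nsmul_inU (hab : 4 * a ^ 3 + 27 * b ^ 2 ≠ 0) (hδ : Small ρ a b δ)
    (P : ((shortW a b)⁄F).Point) : ∃ n : ℕ, 0 < n ∧ InU ρ δ (n • P) := by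
  by_cases hfin : ∃ n : ℕ, 0 < n ∧ n • P = 0
  · obtain ⟨n, hn, h0⟩ := hfin
    refine ⟨n, hn, ?_⟩
    rw [h0]
    exact inU_zero hδ.pos
  push Not at hfin
  have hd := hδ.pos
  set A : ℝ := ‖ρ a‖ with hA
  set B : ℝ := ‖ρ b‖ with hB
  have hA0 : 0 ≤ A := norm_nonneg _
  have hB0 : 0 ≤ B := norm_nonneg _
  have hd2 : 0 < 2 / δ ^ 2 := by positivity
  obtain ⟨n, hn, x, y, hxy, hM⟩ := unbounded_multiples_norm ρ hab P hfin
    (1 + 2 * A + 2 * B + 2 / δ ^ 2)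
  refine ⟨n, hn, ?_⟩
  have heq := norm_eqn ρ hxy
  set X : ℝ := ‖ρ x‖ with hX
  set Y : ℝ := ‖ρ y‖ with hY
  have hX1 : 1 ≤ X := by linarith
  have hX0 : 0 < X := by linarith
  have hY0' : 0 ≤ Y := norm_nonneg _
  have hAB : A * X + B ≤ X ^ 3 / 2 := by
    have h1 : A * X + B ≤ (A + B) * X := by nlinarith
    have h2 : (A + B) * X ≤ X / 2 * X := by
      have : A + B ≤ X / 2 := by linarith
      exact mul_le_mul_of_nonneg_right this hX0.le
    have h3 : X ^ 2 ≤ X ^ 3 := pow_le_pow_right₀ hX1 (by norm_num)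
    nlinarith
  have hY2 : X ^ 3 / 2 ≤ Y ^ 2 := by
    have h1 : X ^ 3 ≤ Y ^ 2 + (A * X + B) := by
      calc X ^ 3 = ‖ρ x ^ 3‖ := by rw [norm_pow]
        _ = ‖ρ y ^ 2 - (ρ a * ρ x + ρ b)‖ := by rw [heq]; congr 1; ring
        _ ≤ ‖ρ y ^ 2‖ + ‖ρ a * ρ x + ρ b‖ := norm_sub_le _ _
        _ ≤ Y ^ 2 + (A * X + B) := by
            rw [norm_pow]
            refine add_le_add le_rfl ((norm_add_le _ _).trans ?_)
            rw [norm_mul]
    linarith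
  have hY0 : 0 < Y := by
    rcases hY0'.lt_or_eq with h | h
    · exact h
    · exfalso
      rw [← h] at hY2
      have : 0 < X ^ 3 := by positivity
      linarith
  have hy : y ≠ 0 := by
    intro h
    rw [hY, h, map_zero, norm_zero] at hY0
    exact lt_irrefl _ hY0
  have hdX : 2 ≤ δ ^ 2 * X := by
    have h1 : 2 / δ ^ 2 ≤ X := by linarith
    rwa [div_le_iff₀ (by positivity), mul_comm] at h1
  have hXY : X ≤ δ * Y := by
    rw [← pow_le_pow_iff_left₀ hX0.le (by positivity) (two_ne_zero)]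
    calc X ^ 2 = 2 * (X ^ 2 / 2) := by ring
      _ ≤ δ ^ 2 * X * (X ^ 2 / 2) := by gcongr
      _ = δ ^ 2 * (X ^ 3 / 2) := by ring
      _ ≤ δ ^ 2 * Y ^ 2 := by gcongr
      _ = (δ * Y) ^ 2 := by ring
  refine ⟨Or.inr ?_, ?_, ?_⟩
  · rw [wc_isAt hxy]
    exact inv_ne_zero hy
  · rw [zc_isAt hxy, map_div₀, norm_div]
    exact (div_le_iff₀ hY0).2 hXY
  · rw [wc_isAt hxy, map_inv₀, norm_inv]
    rw [inv_le_iff_one_le_mul₀ hY0]
    linarith

/-- Simultaneously at finitely many places and for finitely many points. -/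
theorem exists_nsmul_inU_all {I J : Type} [Finite I] [Finite J] (σ : I → (F →+* ℚ_[p]))
    (hab : 4 * a ^ 3 + 27 * b ^ 2 ≠ 0) (hδ : ∀ i, Small (σ i) a b δ)
    (G : J → ((shortW a b)⁄F).Point) : ∃ n : ℕ, 0 < n ∧ ∀ i j, InU (σ i) δ (n • G j) := by
  classical
  cases nonempty_fintype I
  cases nonempty_fintype J
  choose n hn hU using fun i j => exists_nsmul_inU hab (hδ i) (G j)
  refine ⟨∏ x : I × J, n x.1 x.2, Finset.prod_pos fun x _ => hn x.1 x.2, fun i j => ?_⟩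
  obtain ⟨k, hk⟩ := Finset.dvd_prod_of_mem (fun x : I × J => n x.1 x.2) (Finset.mem_univ (i, j))
  rw [hk, mul_comm, mul_smul]
  exact (nsmul_bound (hδ i) (hU i j) k).1

end

end Pool.Agent.H57U
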