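import Pool.Agent.Lib.H57U.G1
import Pool.Agent.Lib.H57U.B2
import Pool.Agent.Lib.H57U.C1

/-!
Chunk G3 (M). The context exists. Data: `a, b`, point `P₀` of infinite order, `m > 0`, `G j`
(`j < r`) with `m P = Σ k_j G_j`.
* choose `δ > 0` small for all (finitely many) embeddings: `Small σ a b δ` for all `σ`
  (`δ = min (p⁻²) ((1 + Σ_σ ‖σ a‖ + ‖σ b‖)⁻¹)`).
* `exists_nsmul_inU_all` for the points `G j` and all embeddings: `N > 0`, `N • G j` in all
  neighbourhoods. Put `n + 1 = N * m`. Then `(n+1) P = N (Σ k_j G_j) = Σ k_j (N G_j)` is in all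
  neighbourhoods (closed under addition `add_bound`, negation `InU.neg`, multiples `nsmul_bound`).
* `lg σ` from `exists_log`; `star`: `P₀`.
* `finrank W ≤ r`: every `vec P = Σ k_j • lg (N G_j)` is in the span of the `r` vectors
  `(lg σ (N G_j))_σ` (additivity of `lg` on the neighbourhood, so it is `ℤ`-linear there), so `W` is
  contained in the span of `r` vectors: `finrank_span_le_card`, `Submodule.finrank_mono`.
-/

set_option autoImplicit false

open WeierstrassCurve WeierstrassCurve.Affine Module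
open Pool.Agent.H60.UDef

namespace Pool.Agent.H57U

theorem g3_lin {F : Type} [Field F] [DecidableEq F] {a b : F} {p : ℕ} [Fact p.Prime]
    {ρ : F →+* ℚ_[p]} {δ : ℝ} (hδ : Small ρ a b δ) {lg : ((shortW a b)⁄F).Point → ℚ_[p]}
    (hlg : ∀ P Q, InU ρ δ P → InU ρ δ Q → lg (P + Q) = lg P + lg Q) {r : ℕ}
    (Q : Fin r → ((shortW a b)⁄F).Point) (hQ : ∀ j, InU ρ δ (Q j)) (k : Fin r → ℤ) :
    InU ρ δ (∑ j, k j • Q j) ∧ lg (∑ j, k j • Q j) = ∑ j, (k j : ℚ_[p]) * lg (Q j) := by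
  let U : AddSubgroup (((shortW a b)⁄F).Point) :=
    { carrier := {P | InU ρ δ P}
      zero_mem' := inU_zero hδ.pos
      add_mem' := fun hP hQ => (add_bound hδ hP hQ).1
      neg_mem' := fun hP => InU.neg hP }
  let φ : U →+ ℚ_[p] := AddMonoidHom.mk' (fun P : U => lg P.1) fun P P' => hlg P.1 P'.1 P.2 P'.2
  let R : Fin r → U := fun j => ⟨Q j, hQ j⟩
  have h1 : ((∑ j, k j • R j : U) : ((shortW a b)⁄F).Point) = ∑ j, k j • Q j := by
    rw [AddSubgroup.val_finsetSum]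
    rfl
  refine ⟨?_, ?_⟩
  · rw [← h1]
    exact (∑ j, k j • R j : U).2
  · rw [← h1]
    show φ (∑ j, k j • R j) = _
    rw [map_sum]
    refine Finset.sum_congr rfl fun j _ => ?_
    rw [map_zsmul, zsmul_eq_mul]
    rfl

theorem exists_ctx (p : ℕ) [Fact p.Prime] (L : Type) [Field L] [NumberField L] {r : ℕ}
    (h : SmallRank L r) :
    ∃ (a b : L) (C : Ctx p L a b), finrank ℚ_[p] C.W ≤ r := by
  classical
  obtain ⟨a, b, hab, ⟨P₀, hP₀⟩, m, hm, G, hG⟩ := h
  have hp1 : (1 : ℝ) < p := by exact_mod_cast (Fact.out : p.Prime).one_lt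
  have hp0 : (0 : ℝ) < p := by linarith
  set S : ℝ := ∑ σ : L →+* ℚ_[p], (‖σ a‖ + ‖σ b‖) with hS
  have hS0 : 0 ≤ S := Finset.sum_nonneg fun σ _ => by positivity
  have hSle : ∀ σ : L →+* ℚ_[p], ‖σ a‖ + ‖σ b‖ ≤ S := fun σ =>
    Finset.single_le_sum (f := fun σ : L →+* ℚ_[p] => ‖σ a‖ + ‖σ b‖)
      (fun σ _ => by positivity) (Finset.mem_univ σ)
  set δ : ℝ := ((p : ℝ)⁻¹) ^ 2 * (1 + S)⁻¹ with hδdef
  have hp2 : ((p : ℝ)⁻¹) ^ 2 ≤ 1 := pow_le_one₀ (by positivity) (inv_le_one_of_one_le₀ hp1.le)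
  have hS1 : (1 + S)⁻¹ ≤ 1 := inv_le_one_of_one_le₀ (by linarith)
  have hδ0 : 0 < δ := by positivity
  have hδS : δ ≤ (1 + S)⁻¹ := by
    calc δ ≤ 1 * (1 + S)⁻¹ := by
          have : 0 ≤ (1 + S)⁻¹ := by positivity
          exact mul_le_mul_of_nonneg_right hp2 this
      _ = _ := one_mul _
  have hmul : ∀ x : ℝ, 0 ≤ x → x ≤ S → x * δ ≤ 1 := by
    intro x hx0 hx
    calc x * δ ≤ (1 + S) * (1 + S)⁻¹ := by
          have : x ≤ 1 + S := by linarith
          gcongr
      _ = 1 := mul_inv_cancel₀ (by positivity)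
  have hsmall : ∀ σ : L →+* ℚ_[p], Small σ a b δ := fun σ =>
    { pos := hδ0
      le := by
        calc δ ≤ ((p : ℝ)⁻¹) ^ 2 * 1 := by
              have : 0 ≤ ((p : ℝ)⁻¹) ^ 2 := by positivity
              exact mul_le_mul_of_nonneg_left hS1 this
          _ = _ := mul_one _
      ha := hmul _ (norm_nonneg _) ((le_add_of_nonneg_right (norm_nonneg _)).trans (hSle σ))
      hb := hmul _ (norm_nonneg _) ((le_add_of_nonneg_left (norm_nonneg _)).trans (hSle σ)) }
  obtain ⟨N, hN, hNG⟩ := exists_nsmul_inU_all (fun σ : L →+* ℚ_[p] => σ) hab hsmall G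
  choose lg hadd hbound using fun σ : L →+* ℚ_[p] => exists_log (hsmall σ)
  have hNm : 0 < N * m := Nat.mul_pos hN hm
  have hn1 : N * m - 1 + 1 = N * m := Nat.sub_add_cancel hNm
  have hform : ∀ P : ((shortW a b)⁄L).Point, ∃ k : Fin r → ℤ,
      (N * m - 1 + 1) • P = ∑ j, k j • (N • G j) := by
    intro P
    obtain ⟨k, hk⟩ := hG P
    refine ⟨k, ?_⟩
    rw [hn1, mul_smul, hk, Finset.smul_sum]
    refine Finset.sum_congr rfl fun j _ => ?_
    rw [smul_comm]
  let C : Ctx p L a b :=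
    { hab := hab
      n := N * m - 1
      δ := δ
      small := hsmall
      inU := fun P σ => by
        obtain ⟨k, hk⟩ := hform P
        rw [hk]
        exact (g3_lin (hsmall σ) (hadd σ) (fun j => N • G j) (hNG σ) k).1
      lg := lg
      lg_add := hadd
      lg_bound := hbound
      star := ⟨P₀, hP₀ _ (Nat.succ_pos _)⟩ }
  refine ⟨a, b, C, ?_⟩
  let g : Fin r → ((L →+* ℚ_[p]) → ℚ_[p]) := fun j σ => lg σ (N • G j)
  have hW : C.W ≤ Submodule.span ℚ_[p] (Set.range g) := by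
    refine Submodule.span_le.2 ?_
    rintro _ ⟨P, rfl⟩
    obtain ⟨k, hk⟩ := hform P
    have e : C.vec P = ∑ j, (k j : ℚ_[p]) • g j := by
      funext σ
      rw [Finset.sum_apply]
      show lg σ ((N * m - 1 + 1) • P) = ∑ j, (k j : ℚ_[p]) * lg σ (N • G j)
      rw [hk]
      exact (g3_lin (hsmall σ) (hadd σ) (fun j => N • G j) (hNG σ) k).2
    rw [e]
    exact Submodule.sum_mem _ fun j _ => Submodule.smul_mem _ _ (Submodule.subset_span ⟨j, rfl⟩)
  calc finrank ℚ_[p] C.W ≤ finrank ℚ_[p] (Submodule.span ℚ_[p] (Set.range g)) :=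
        Submodule.finrank_mono hW
    _ ≤ Fintype.card (Fin r) := finrank_range_le_card g
    _ = r := Fintype.card_fin r

end Pool.Agent.H57U
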