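import Pool.Agent.Lib.H57U.G1

/-!
Chunk G4 (M). A finite family of nonzero points whose restricted logarithm vectors span the
restricted space. `W_B = W.map (res B)` is the span of `res B (vec P)`, `P` any point; it is finite
dimensional, so finitely many `P` suffice (e.g. `Submodule.fg_span_iff...`, or take a basis inside
the spanning set: `exists_linearIndependent`, finite because independent in finite dimension). Drop
the points with `(n+1) P = 0`: their vector is `0` (`lg σ 0 = 0` by additivity, `inU_zero`), and add
the point of `C.star` at index `0` (its vector is in the span anyway).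
-/

set_option autoImplicit false

open WeierstrassCurve WeierstrassCurve.Affine Module
open Pool.Agent.H60.UDef

namespace Pool.Agent.H57U

section

variable {p : ℕ} [Fact p.Prime] {L : Type} [Field L] [NumberField L] {a b : L}

open scoped Classical in
theorem Ctx.vec_eq_zero (C : Ctx p L a b) {P : ((shortW a b)⁄L).Point}
    (h : (C.n + 1) • P = 0) : C.vec P = 0 := by
  have h1 := C.vec_nsmul P (C.n + 1)
  rw [h, C.vec_zero] at h1
  have h2 : ((C.n + 1 : ℕ) : ℚ_[p]) ≠ 0 := by
    exact_mod_cast Nat.succ_ne_zero C.n
  exact (smul_eq_zero.mp h1.symm).resolve_left h2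

open scoped Classical in
theorem Ctx.exists_family (C : Ctx p L a b) (B : Set (L →+* ℚ_[p])) :
    ∃ (s : ℕ) (Q : Fin (s + 1) → ((shortW a b)⁄L).Point), (∀ k, (C.n + 1) • Q k ≠ 0) ∧
      Submodule.span ℚ_[p] (Set.range fun k => res B (C.vec (Q k))) = C.W.map (res B) := by
  obtain ⟨P₀, hP₀⟩ := C.star
  -- the set of vectors
  set S : Set ((B → ℚ_[p])) := Set.range (fun P => res B (C.vec P)) with hS
  have hW : C.W.map (res B) = Submodule.span ℚ_[p] S := by
    rw [Ctx.W, Submodule.map_span, ← Set.range_comp]
    rfl
  obtain ⟨T, hTS, hTspan, hTli⟩ := exists_linearIndependent ℚ_[p] S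
  have hTfin : T.Finite := hTli.setFinite
  haveI := hTfin.fintype
  -- a point for every element of `T`
  have h1 : ∀ t : T, ∃ P, res B (C.vec P) = t.1 := fun t => hTS t.2
  choose f hf using h1
  have h2 : ∀ t : T, (C.n + 1) • f t ≠ 0 := by
    intro t h0
    have h3 := C.vec_eq_zero h0
    have h4 := hf t
    rw [h3, map_zero] at h4
    exact hTli.ne_zero t h4.symm
  let e := Fintype.equivFin T
  refine ⟨Fintype.card T, Fin.cons P₀ (fun i => f (e.symm i)), ?_, ?_⟩
  · intro k
    refine Fin.cases ?_ (fun i => ?_) k
    · simpa using hP₀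
    · simpa using h2 (e.symm i)
  · rw [hW]
    apply le_antisymm
    · rw [Submodule.span_le]
      rintro _ ⟨k, rfl⟩
      apply Submodule.subset_span
      exact ⟨_, rfl⟩
    · rw [← hTspan, Submodule.span_le]
      intro t ht
      apply Submodule.subset_span
      refine ⟨Fin.succ (e ⟨t, ht⟩), ?_⟩
      simp only [Fin.cons_succ, Equiv.symm_apply_apply]
      exact hf ⟨t, ht⟩

end

end Pool.Agent.H57U
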