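import Pool.Agent.Lib.H57U.D2
import Pool.Agent.Lib.H57U.D3
import Pool.Agent.Lib.H57U.G3
import Pool.Agent.Lib.H57U.G4
import Pool.Agent.Lib.H57U.E1
import Pool.Agent.Lib.H57U.E2
import Pool.Agent.Lib.H57U.E3
import Pool.Agent.Lib.H57U.E4

/-!
Chunk E5 (M). For `i`, `j` in one class of `mult W` the set `{x : i x ≠ j x}` is Diophantine.
`B = {v | ∀ f ∈ mult W, f i = f v}` (contains `i`, `j`). Take the family of `exists_family`
(points `Q k`), apply `compact_lemma` to `W.map (res B)`, `w k = res B (vec (Q k))` (`w 0` has no zero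
coordinate: `vec_ne_zero`; `hconst` is `restrict_const`: the subtype there is `B` by definition).
`complete` gives `M1`, `sound` gives `M0, M3`, then `M2` (for this `M1`). `c k` with
`‖vec (Q k) v - v (c k) vec (Q 0) v‖ p^M0 ≤ ‖vec (Q 0) v‖` for all `v`: `Splits.approx` for
`u v = vec (Q k) v / vec (Q 0) v`, `ε = p^-M0`.
Then `i x ≠ j x` iff `Cert x ∨ ∃ y, x y = 1 ∧ Cert y`: if `‖i x‖ ≤ 1` use `complete`; otherwise
`x ≠ 0`, `‖i x⁻¹‖ ≤ 1`, `i x⁻¹ ≠ j x⁻¹`. Conversely `sound` (and `i y ≠ j y` with `x y = 1` gives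
`i x ≠ j x`). `DioP` of the disjunction: `DioR.or`, `DioR.ex`, `DioP.dioR`, `DioR.app`.
`GoodPrime`: hypothesis.
-/

set_option autoImplicit false

open WeierstrassCurve WeierstrassCurve.Affine Module
open Pool.Agent.H60.UDef

namespace Pool.Agent.H57U

section

variable {p l₁ l₂ : ℕ} [Fact p.Prime] {L : Type} [Field L] [NumberField L] {a b : L}

theorem Ctx.dioP_ne (C : Ctx p L a b) (hs : Splits p L) (hg : GoodPrime p l₁ l₂)
    (i j : L →+* ℚ_[p]) (hij : ∀ f ∈ mult C.W, f i = f j) : DioP L (fun x => i x ≠ j x) := by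
  classical
  haveI : Nonempty (L →+* ℚ_[p]) := ⟨i⟩
  have hpr : (0 : ℝ) < p := by exact_mod_cast (Fact.out : p.Prime).pos
  let B : Set (L →+* ℚ_[p]) := {v | ∀ f ∈ mult C.W, f i = f v}
  have hi : i ∈ B := fun f _ => rfl
  have hj : j ∈ B := hij
  obtain ⟨s, Q, hQ, hspan⟩ := C.exists_family B
  have hQ' : ∀ k, (C.n + 1) • Q k ≠ 0 := fun k => by convert hQ k
  have hlem := compact_lemma (C.W.map (res B)) (fun k => res B (C.vec (Q k))) hspan
    (fun v => by
      have := C.vec_ne_zero (hQ' 0) v.1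
      exact this)
    (fun y hy u v => restrict_const C.W i y hy u v)
  obtain ⟨M1, hM1⟩ := C.complete B Q hQ'
  obtain ⟨M0, M3, hM03⟩ := C.sound B Q hQ' hlem
  obtain ⟨M2, hM2⟩ := hM03 M1
  -- the approximate ratios
  have hc : ∃ c : Fin (s + 1) → L, ∀ (v : L →+* ℚ_[p]) (k : Fin (s + 1)),
      ‖C.vec (Q k) v - v (c k) * C.vec (Q 0) v‖ * (p : ℝ) ^ M0 ≤ ‖C.vec (Q 0) v‖ := by
    have h1 : ∀ k : Fin (s + 1), ∃ y : L, ∀ v : L →+* ℚ_[p],
        ‖v y - C.vec (Q k) v / C.vec (Q 0) v‖ < ((p : ℝ) ^ M0)⁻¹ := fun k =>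
      hs.approx (fun v => C.vec (Q k) v / C.vec (Q 0) v) (by positivity)
    choose c hc using h1
    refine ⟨c, fun v k => ?_⟩
    have h2 : C.vec (Q 0) v ≠ 0 := C.vec_ne_zero (hQ' 0) v
    have h3 : C.vec (Q k) v - v (c k) * C.vec (Q 0) v
        = -((v (c k) - C.vec (Q k) v / C.vec (Q 0) v) * C.vec (Q 0) v) := by
      field_simp
      ring
    rw [h3, norm_neg, norm_mul]
    have h4 := (hc k v).le
    have h5 : (0 : ℝ) < (p : ℝ) ^ M0 := by positivity
    calc ‖v (c k) - C.vec (Q k) v / C.vec (Q 0) v‖ * ‖C.vec (Q 0) v‖ * (p : ℝ) ^ M0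
        ≤ ((p : ℝ) ^ M0)⁻¹ * ‖C.vec (Q 0) v‖ * (p : ℝ) ^ M0 := by gcongr
      _ = ‖C.vec (Q 0) v‖ := by field_simp
  obtain ⟨c, hc⟩ := hc
  have hc' : ∀ v ∈ B, ∀ k, ‖C.vec (Q k) v - v (c k) * C.vec (Q 0) v‖ * (p : ℝ) ^ M0
        ≤ ‖C.vec (Q 0) v‖ := fun v _ k => hc v k
  have hcomp := hM1 M0 M2 M3 c hc' i j
  have hsound := hM2 c hc' i hi j hj
  have hD : DioP L (Cert C.Zs B i j c M0 M1 M2 M3) :=
    dioP_cert hs hg C.dioP_Zs (fun z hz => C.Zs_ne_zero hz) B i j c M0 M1 M2 M3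
  have h1 : DioR L (fun v : Fin 1 ⊕ Fin 1 → L => Cert C.Zs B i j c M0 M1 M2 M3 (v (Sum.inr 0))) :=
    DioR.app hD (PF.var _)
  have h2 : DioR L (fun v : Fin 1 ⊕ Fin 1 → L => v (Sum.inl 0) * v (Sum.inr 0) = 1) :=
    DioR.eq ((PF.var _).mul (PF.var _)) (PF.const _)
  have h3 := ((h1.and h2).ex)
  refine (hD.dioR.or h3).dioP.congr fun x => ?_
  simp only [Sum.elim_inl, Sum.elim_inr]
  constructor
  · rintro (h4 | ⟨w, h4, h5⟩)
    · exact hsound x h4
    · intro h6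
      apply hsound _ h4
      have h7 : i x * i (w 0) = 1 := by rw [← map_mul, h5, map_one]
      have h8 : j x * j (w 0) = 1 := by rw [← map_mul, h5, map_one]
      rw [h6] at h7
      have h9 : j x ≠ 0 := fun h => by simp [h] at h8
      exact mul_left_cancel₀ h9 (h7.trans h8.symm)
  · intro hne
    by_cases h4 : ‖i x‖ ≤ 1
    · exact Or.inl (hcomp x h4 hne)
    · push Not at h4
      right
      have hx0 : x ≠ 0 := by
        rintro rfl
        exact hne (by simp)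
      refine ⟨fun _ => x⁻¹, ?_, mul_inv_cancel₀ hx0⟩
      apply hcomp
      · rw [map_inv₀, norm_inv]
        exact inv_le_one_of_one_le₀ h4.le
      · rw [map_inv₀, map_inv₀]
        intro h5
        exact hne (inv_injective h5)

end

end Pool.Agent.H57U
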