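import Pool.Agent.Lib.H57U.Defs

/-!
Chunk A2 (S/M). Three collinear points, pure algebra in a field.
`y = l x + c` meets `y² = x³ + a x + b` in `x₁, x₂, x₃`: `e₁ = x₁ + x₂ + x₃ = l²`,
`e₂ = x₁x₂ + x₁x₃ + x₂x₃ = a - 2lc`, `e₃ = x₁x₂x₃ = c² - b`.

* `prod_y`: `(l x₁ + c)(l x₂ + c)(l x₃ + c) = l³e₃ + l²c e₂ + l c² e₁ + c³ = c³ + a l² c - b l³`.
* `sum_z`: `Σ x_i (l x_j + c)(l x_k + c) = 3l²e₃ + 2lc e₂ + c² e₁ = 2alc - 3bl²`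
  (in the second statement `y_i = l x_i + c`, all nonzero).
* `chord_rel`, `tangent_rel`: the relations `e₂`, `e₃` from the equations of the points (cancel
  `x₁ - x₂`; for the tangent use `2 y l = 3 x² + a`).
-/

set_option autoImplicit false

namespace Pool.Agent.H57U

section

variable {F : Type} [Field F] {a b : F}

theorem prod_y {x₁ x₂ x₃ l c : F} (e1 : x₁ + x₂ + x₃ = l ^ 2)
    (e2 : x₁ * x₂ + x₁ * x₃ + x₂ * x₃ = a - 2 * l * c) (e3 : x₁ * x₂ * x₃ = c ^ 2 - b) :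
    (l * x₁ + c) * (l * x₂ + c) * (l * x₃ + c) = c ^ 3 + a * l ^ 2 * c - b * l ^ 3 := by
  linear_combination l * c ^ 2 * e1 + l ^ 2 * c * e2 + l ^ 3 * e3

theorem sum_z {x₁ x₂ x₃ l c : F} (e1 : x₁ + x₂ + x₃ = l ^ 2)
    (e2 : x₁ * x₂ + x₁ * x₃ + x₂ * x₃ = a - 2 * l * c) (e3 : x₁ * x₂ * x₃ = c ^ 2 - b)
    (h1 : l * x₁ + c ≠ 0) (h2 : l * x₂ + c ≠ 0) (h3 : l * x₃ + c ≠ 0) :
    x₁ / (l * x₁ + c) + x₂ / (l * x₂ + c) + x₃ / (l * x₃ + c)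
      = (2 * a * l * c - 3 * b * l ^ 2) / (c ^ 3 + a * l ^ 2 * c - b * l ^ 3) := by
  rw [← prod_y e1 e2 e3, div_add_div _ _ h1 h2, div_add_div _ _ (mul_ne_zero h1 h2) h3]
  congr 1
  linear_combination c ^ 2 * e1 + 2 * l * c * e2 + 3 * l ^ 2 * e3

theorem chord_rel {x₁ y₁ x₂ y₂ l c x₃ : F} (h1 : y₁ ^ 2 = x₁ ^ 3 + a * x₁ + b)
    (h2 : y₂ ^ 2 = x₂ ^ 3 + a * x₂ + b) (hx : x₁ ≠ x₂) (hy1 : y₁ = l * x₁ + c)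
    (hy2 : y₂ = l * x₂ + c) (h3 : x₃ = l ^ 2 - x₁ - x₂) :
    x₁ + x₂ + x₃ = l ^ 2 ∧ x₁ * x₂ + x₁ * x₃ + x₂ * x₃ = a - 2 * l * c ∧
      x₁ * x₂ * x₃ = c ^ 2 - b := by
  subst h3 hy1 hy2
  have hne : x₁ - x₂ ≠ 0 := sub_ne_zero.2 hx
  have e2 : x₁ * x₂ + x₁ * (l ^ 2 - x₁ - x₂) + x₂ * (l ^ 2 - x₁ - x₂) = a - 2 * l * c := by
    apply mul_left_cancel₀ hne
    linear_combination h1 - h2
  refine ⟨by ring, e2, ?_⟩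
  linear_combination x₁ * e2 - h1

theorem tangent_rel {x₁ y₁ l c x₃ : F} (h1 : y₁ ^ 2 = x₁ ^ 3 + a * x₁ + b)
    (hl : l * (2 * y₁) = 3 * x₁ ^ 2 + a) (hy1 : y₁ = l * x₁ + c)
    (h3 : x₃ = l ^ 2 - x₁ - x₁) :
    x₁ + x₁ + x₃ = l ^ 2 ∧ x₁ * x₁ + x₁ * x₃ + x₁ * x₃ = a - 2 * l * c ∧
      x₁ * x₁ * x₃ = c ^ 2 - b := by
  subst h3 hy1
  have e2 : x₁ * x₁ + x₁ * (l ^ 2 - x₁ - x₁) + x₁ * (l ^ 2 - x₁ - x₁) = a - 2 * l * c := by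
    linear_combination hl
  refine ⟨by ring, e2, ?_⟩
  linear_combination x₁ * e2 - h1

end

end Pool.Agent.H57U
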