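import Pool.Agent.Lib.H57U.A1

/-!
Chunk A3 (M). The line through two points of the neighbourhood: `y = l x + c`, `c ≠ 0`,
`‖l / c‖ ≤ μ²`, `‖1 / c‖ ≤ μ³`, where `μ = max ‖z₁‖ ‖z₂‖`.

Put `z_i = zc`, `w_i = wc`, `l = (y₁ - y₂)/(x₁ - x₂)`, `c = y₁ - l x₁` (so `y₂ = l x₂ + c`).
Dividing by `y_i`: `1 = l z_i + c w_i`.
* `z₁ ≠ z₂` by `eq_of_zc` (the points are different, as `x₁ ≠ x₂`).
* `c ≠ 0`: otherwise `l z₁ = 1 = l z₂`, so `z₁ = z₂`.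
* with `λ = -l / c`: `w_i = λ z_i + 1/c`, `w₁ - w₂ = λ (z₁ - z₂)`. Subtracting the two equations
  `w = z³ + a z w² + b w³` and dividing by `z₁ - z₂`:
  `λ (1 - a z₂ (w₁ + w₂) - b (w₁² + w₁w₂ + w₂²)) = z₁² + z₁z₂ + z₂² + a w₁²`.
  The bracket has norm `1` and the right side norm `≤ μ²` (`‖a w₁²‖ ≤ ‖a‖ μ⁶ ≤ μ²`).
* `1/c = w₁ - λ z₁`, norm `≤ μ³`.
-/

set_option autoImplicit false

open WeierstrassCurve WeierstrassCurve.Affine Module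
open Pool.Agent.H60.UDef

namespace Pool.Agent.H57U

section

variable {F : Type} [Field F] {a b : F} {p : ℕ} [Fact p.Prime] {ρ : F →+* ℚ_[p]} {δ : ℝ}

theorem a3_pow {A W : ℚ_[p]} {μ δ : ℝ} (hA : ‖A‖ * δ ≤ 1) (hμ : μ ≤ δ) (h0 : 0 ≤ μ)
    (hδ : δ < 1) (hW : ‖W‖ ≤ μ ^ 3) : ‖A * W ^ 2‖ ≤ μ ^ 2 := by
  rw [norm_mul, norm_pow]
  have h1 : ‖A‖ * μ ≤ 1 := le_trans (mul_le_mul_of_nonneg_left hμ (norm_nonneg _)) hA
  have hμ1 : μ ≤ 1 := le_trans hμ hδ.le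
  have h2 : ‖W‖ ^ 2 ≤ (μ ^ 3) ^ 2 := pow_le_pow_left₀ (norm_nonneg _) hW 2
  have h3 : μ ^ 5 ≤ μ ^ 2 := pow_le_pow_of_le_one h0 hμ1 (by norm_num)
  calc ‖A‖ * ‖W‖ ^ 2 ≤ ‖A‖ * (μ ^ 3) ^ 2 := mul_le_mul_of_nonneg_left h2 (norm_nonneg _)
    _ = (‖A‖ * μ) * μ ^ 5 := by ring
    _ ≤ 1 * μ ^ 5 := mul_le_mul_of_nonneg_right h1 (by positivity)
    _ ≤ μ ^ 2 := by rw [one_mul]; exact h3

theorem a3_mul_le {x y : ℚ_[p]} {μ : ℝ} (hx : ‖x‖ ≤ μ) (hy : ‖y‖ ≤ μ) : ‖x * y‖ ≤ μ ^ 2 := by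
  rw [norm_mul, pow_two]
  exact mul_le_mul hx hy (norm_nonneg _) (le_trans (norm_nonneg _) hx)

theorem chord_bound (hδ : Small ρ a b δ) {P Q : ((shortW a b)⁄F).Point} (hP : InU ρ δ P)
    (hQ : InU ρ δ Q) {x₁ y₁ x₂ y₂ l c : F} (h1 : IsAt P x₁ y₁) (h2 : IsAt Q x₂ y₂)
    (hx : x₁ ≠ x₂) (hl : l = (y₁ - y₂) / (x₁ - x₂)) (hc : c = y₁ - l * x₁) :
    c ≠ 0 ∧ ‖ρ (l / c)‖ ≤ max ‖ρ (zc P)‖ ‖ρ (zc Q)‖ ^ 2 ∧
      ‖ρ (1 / c)‖ ≤ max ‖ρ (zc P)‖ ‖ρ (zc Q)‖ ^ 3 := by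
  have hz1 := zc_isAt h1
  have hz2 := zc_isAt h2
  have hw1 := wc_isAt h1
  have hw2 := wc_isAt h2
  have hwP : wc P ≠ 0 := hP.1.resolve_left h1.ne_zero
  have hwQ : wc Q ≠ 0 := hQ.1.resolve_left h2.ne_zero
  have hy1 : y₁ ≠ 0 := by
    rintro rfl
    rw [inv_zero] at hw1
    exact hwP hw1
  have hy2 : y₂ ≠ 0 := by
    rintro rfl
    rw [inv_zero] at hw2
    exact hwQ hw2
  have hxx : x₁ - x₂ ≠ 0 := sub_ne_zero.2 hx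
  have hl' : l * (x₁ - x₂) = y₁ - y₂ := by
    rw [hl, div_mul_cancel₀ _ hxx]
  have hc1 : y₁ = l * x₁ + c := by rw [hc]; ring
  have hc2 : y₂ = l * x₂ + c := by linear_combination hc1 + hl'
  have g1 : l * zc P + c * wc P = 1 := by
    rw [hz1, hw1]
    field_simp
    exact hc1.symm
  have g2 : l * zc Q + c * wc Q = 1 := by
    rw [hz2, hw2]
    field_simp
    exact hc2.symm
  have hzne : zc P ≠ zc Q := by
    intro h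
    have hPQ := eq_of_zc hδ hP hQ h
    subst hPQ
    exact hx (h1.unique h2).1
  have hc0 : c ≠ 0 := by
    intro h0
    rw [h0, zero_mul, add_zero] at g1 g2
    have hl0 : l ≠ 0 := by
      rintro rfl
      rw [zero_mul] at g1
      exact zero_ne_one g1
    exact hzne (mul_left_cancel₀ hl0 (g1.trans g2.symm))
  have hwP' : wc P = -(l / c) * zc P + 1 / c := by
    field_simp
    linear_combination g1
  have hwQ' : wc Q = -(l / c) * zc Q + 1 / c := by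
    field_simp
    linear_combination g2
  have e1 := wc_eqn P hP.1
  have e2 := wc_eqn Q hQ.1
  have e3 : (l / c) * (1 - (a * zc Q * (wc P + wc Q) + b * (wc P ^ 2 + wc P * wc Q + wc Q ^ 2)))
      = -(zc P ^ 2 + zc P * zc Q + zc Q ^ 2 + a * wc P ^ 2) := by
    apply mul_left_cancel₀ (sub_ne_zero.2 hzne)
    have e4 : wc P - wc Q = -(l / c) * (zc P - zc Q) := by
      rw [hwP', hwQ']; ring
    linear_combination (1 - (a * zc Q * (wc P + wc Q)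
      + b * (wc P ^ 2 + wc P * wc Q + wc Q ^ 2))) * e4 - e1 + e2
  set μ : ℝ := max ‖ρ (zc P)‖ ‖ρ (zc Q)‖ with hμdef
  have hμP : ‖ρ (zc P)‖ ≤ μ := le_max_left _ _
  have hμQ : ‖ρ (zc Q)‖ ≤ μ := le_max_right _ _
  have hμ0 : 0 ≤ μ := le_trans (norm_nonneg _) hμP
  have hμδ : μ ≤ δ := max_le hP.2.1 hQ.2.1
  have hWP : ‖ρ (wc P)‖ ≤ μ ^ 3 := by
    rw [norm_wc hδ hP]
    exact pow_le_pow_left₀ (norm_nonneg _) hμP 3
  have e5 := congrArg ρ e3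
  simp only [map_add, map_mul, map_pow, map_sub, map_one, map_neg] at e5
  have h5 : ‖ρ a * ρ (zc Q) * ρ (wc P) + ρ a * ρ (zc Q) * ρ (wc Q) +
      (ρ b * ρ (wc P) * ρ (wc P) + (ρ b * ρ (wc P) * ρ (wc Q)
        + ρ b * ρ (wc Q) * ρ (wc Q)))‖ < 1 :=
    lt_of_le_of_lt (a1_add_le (a1_add_le (a1_mul3 hδ.ha hQ.2.1 hP.2.2)
      (a1_mul3 hδ.ha hQ.2.1 hQ.2.2)) (a1_add_le (a1_mul3 hδ.hb hP.2.2 hP.2.2)
        (a1_add_le (a1_mul3 hδ.hb hP.2.2 hQ.2.2)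
          (a1_mul3 hδ.hb hQ.2.2 hQ.2.2)))) hδ.lt_one
  have h6 := a1_one_sub h5
  have e6 : ρ (l / c) * (1 - (ρ a * ρ (zc Q) * ρ (wc P) + ρ a * ρ (zc Q) * ρ (wc Q) +
      (ρ b * ρ (wc P) * ρ (wc P) + (ρ b * ρ (wc P) * ρ (wc Q)
        + ρ b * ρ (wc Q) * ρ (wc Q)))))
      = -(ρ (zc P) * ρ (zc P) + ρ (zc P) * ρ (zc Q) + ρ (zc Q) * ρ (zc Q)
          + ρ a * ρ (wc P) ^ 2) := by
    linear_combination e5
  have e7 := congrArg norm e6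
  rw [norm_mul, h6, mul_one, norm_neg] at e7
  have hl1 : ‖ρ (l / c)‖ ≤ μ ^ 2 := by
    rw [e7]
    exact a1_add_le (a1_add_le (a1_add_le (a3_mul_le hμP hμP) (a3_mul_le hμP hμQ))
      (a3_mul_le hμQ hμQ)) (a3_pow hδ.ha hμδ hμ0 hδ.lt_one hWP)
  refine ⟨hc0, hl1, ?_⟩
  have e8 : ρ (1 / c) = ρ (wc P) + ρ (l / c) * ρ (zc P) := by
    rw [← map_mul, ← map_add]
    congr 1
    linear_combination -hwP'
  rw [e8]
  refine a1_add_le hWP ?_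
  rw [norm_mul, pow_succ]
  exact mul_le_mul hl1 hμP (norm_nonneg _) (by positivity)

end

end Pool.Agent.H57U
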