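import Pool.Agent.Lib.H57U.A1

/-!
Chunk A4 (M). The tangent at a point of the neighbourhood: `y = l x + c`, `c ≠ 0`,
`‖l / c‖ ≤ μ²`, `‖1 / c‖ ≤ μ³`, `μ = ‖z‖`.

`l = (3x² + a)/(2y)`, `c = y - l x = (2y² - 3x³ - a x)/(2y) = (-x³ + a x + 2b)/(2y)`.
With `x = z/w`, `y = 1/w`, `z³ = w - a z w² - b w³`:
`2 c = (-z³/w³ + a z/w + 2b) w = -(w - a z w² - b w³ - a z w² - 2 b w³)/w² = -(1 - 2azw - 3bw²)/w`,
so `c ≠ 0` because `‖2azw + 3bw²‖ < 1`; and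
`-l/c = (3z² + a w²)/(1 - 2azw - 3bw²)`, norm `≤ μ²`; `1/c = w + (l/c) z`, norm `≤ μ³`.
-/

set_option autoImplicit false

open WeierstrassCurve WeierstrassCurve.Affine Module
open Pool.Agent.H60.UDef

namespace Pool.Agent.H57U

section

variable {F : Type} [Field F] {a b : F} {p : ℕ} [Fact p.Prime] {ρ : F →+* ℚ_[p]} {δ : ℝ}

theorem a4_pow {A W : ℚ_[p]} {μ δ : ℝ} (hA : ‖A‖ * δ ≤ 1) (hμ : μ ≤ δ) (h0 : 0 ≤ μ)
    (hδ : δ < 1) (hW : ‖W‖ ≤ μ ^ 3) : ‖A * W ^ 2‖ ≤ μ ^ 2 := by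
  rw [norm_mul, norm_pow]
  have h1 : ‖A‖ * μ ≤ 1 := le_trans (mul_le_mul_of_nonneg_left hμ (norm_nonneg _)) hA
  have hμ1 : μ ≤ 1 := le_trans hμ hδ.le
  have h2 : ‖W‖ ^ 2 ≤ (μ ^ 3) ^ 2 := pow_le_pow_left₀ (norm_nonneg _) hW 2
  have h3 : μ ^ 5 ≤ μ ^ 2 := pow_le_pow_of_le_one h0 hμ1 (by norm_num)
  calc ‖A‖ * ‖W‖ ^ 2 ≤ ‖A‖ * (μ ^ 3) ^ 2 := mul_le_mul_of_nonneg_left h2 (norm_nonneg _)
    _ = (‖A‖ * μ) * μ ^ 5 := by ring
    _ ≤ 1 * μ ^ 5 := mul_le_mul_of_nonneg_right h1 (by positivity)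
    _ ≤ μ ^ 2 := by rw [one_mul]; exact h3

theorem tangent_bound (hδ : Small ρ a b δ) {P : ((shortW a b)⁄F).Point} (hP : InU ρ δ P)
    {x y l c : F} (h1 : IsAt P x y) (hl : l = (3 * x ^ 2 + a) / (2 * y)) (hc : c = y - l * x) :
    y ≠ 0 ∧ c ≠ 0 ∧ ‖ρ (l / c)‖ ≤ ‖ρ (zc P)‖ ^ 2 ∧ ‖ρ (1 / c)‖ ≤ ‖ρ (zc P)‖ ^ 3 := by
  have hz1 := zc_isAt h1
  have hw1 := wc_isAt h1
  have hwP : wc P ≠ 0 := hP.1.resolve_left h1.ne_zero
  have hy : y ≠ 0 := by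
    rintro rfl
    rw [inv_zero] at hw1
    exact hwP hw1
  have hchar : CharZero F := RingHom.charZero ρ
  have h2 : (2 : F) ≠ 0 := two_ne_zero
  have hl' : l * (2 * y) = 3 * x ^ 2 + a := by
    rw [hl, div_mul_cancel₀ _ (mul_ne_zero h2 hy)]
  have hc1 : y = l * x + c := by rw [hc]; ring
  have hy' : y = (wc P)⁻¹ := by rw [hw1, inv_inv]
  have hx' : x = zc P / wc P := by
    rw [hz1, hw1]
    field_simp
  have g1 : l * zc P + c * wc P = 1 := by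
    rw [hz1, hw1]
    field_simp
    exact hc1.symm
  have e1 := wc_eqn P hP.1
  have g2 : 2 * l * wc P = 3 * zc P ^ 2 + a * wc P ^ 2 := by
    rw [hx', hy'] at hl'
    field_simp at hl'
    linear_combination hl'
  have g3 : 2 * c * wc P = -(1 - (2 * a * zc P * wc P + 3 * b * wc P ^ 2)) := by
    apply mul_left_cancel₀ hwP
    linear_combination 2 * wc P * g1 - zc P * g2 + 3 * e1
  have h5 : ‖ρ a * ρ (zc P) * ρ (wc P) + ρ a * ρ (zc P) * ρ (wc P) +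
      (ρ b * ρ (wc P) * ρ (wc P) + (ρ b * ρ (wc P) * ρ (wc P)
        + ρ b * ρ (wc P) * ρ (wc P)))‖ < 1 :=
    lt_of_le_of_lt (a1_add_le (a1_add_le (a1_mul3 hδ.ha hP.2.1 hP.2.2)
      (a1_mul3 hδ.ha hP.2.1 hP.2.2)) (a1_add_le (a1_mul3 hδ.hb hP.2.2 hP.2.2)
        (a1_add_le (a1_mul3 hδ.hb hP.2.2 hP.2.2)
          (a1_mul3 hδ.hb hP.2.2 hP.2.2)))) hδ.lt_one
  have h6 := a1_one_sub h5
  have hc0 : c ≠ 0 := by
    intro h0
    rw [h0, mul_zero, zero_mul] at g3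
    have e5 := congrArg ρ g3
    simp only [map_add, map_mul, map_pow, map_sub, map_one, map_neg, map_zero, map_ofNat] at e5
    have e6 : 1 - (ρ a * ρ (zc P) * ρ (wc P) + ρ a * ρ (zc P) * ρ (wc P) +
        (ρ b * ρ (wc P) * ρ (wc P) + (ρ b * ρ (wc P) * ρ (wc P)
          + ρ b * ρ (wc P) * ρ (wc P)))) = 0 := by
      linear_combination e5
    rw [e6, norm_zero] at h6
    exact zero_ne_one h6
  have g4 : (l / c) * (1 - (2 * a * zc P * wc P + 3 * b * wc P ^ 2))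
      = -(3 * zc P ^ 2 + a * wc P ^ 2) := by
    rw [← g2, eq_neg_iff_add_eq_zero]
    field_simp
    linear_combination l * g3
  set μ : ℝ := ‖ρ (zc P)‖ with hμdef
  have hμ0 : 0 ≤ μ := norm_nonneg _
  have hμP : ‖ρ (zc P)‖ ≤ μ := le_rfl
  have hWP : ‖ρ (wc P)‖ ≤ μ ^ 3 := (norm_wc hδ hP).le
  have e5 := congrArg ρ g4
  simp only [map_add, map_mul, map_pow, map_sub, map_one, map_neg, map_ofNat] at e5
  have e6 : ρ (l / c) * (1 - (ρ a * ρ (zc P) * ρ (wc P) + ρ a * ρ (zc P) * ρ (wc P) +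
      (ρ b * ρ (wc P) * ρ (wc P) + (ρ b * ρ (wc P) * ρ (wc P)
        + ρ b * ρ (wc P) * ρ (wc P)))))
      = -(ρ (zc P) ^ 2 + ρ (zc P) ^ 2 + ρ (zc P) ^ 2 + ρ a * ρ (wc P) ^ 2) := by
    linear_combination e5
  have e7 := congrArg norm e6
  rw [norm_mul, h6, mul_one, norm_neg] at e7
  have hz2 : ‖ρ (zc P) ^ 2‖ ≤ μ ^ 2 := (norm_pow _ _).le
  have hl1 : ‖ρ (l / c)‖ ≤ μ ^ 2 := by
    rw [e7]
    exact a1_add_le (a1_add_le (a1_add_le hz2 hz2) hz2) (a4_pow hδ.ha hP.2.1 hμ0 hδ.lt_one hWP)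
  refine ⟨hy, hc0, hl1, ?_⟩
  have e8 : ρ (1 / c) = ρ (wc P) + ρ (l / c) * ρ (zc P) := by
    rw [← map_mul, ← map_add]
    congr 1
    field_simp
    linear_combination -g1
  rw [e8]
  refine a1_add_le hWP ?_
  rw [norm_mul, pow_succ]
  exact mul_le_mul hl1 hμP (norm_nonneg _) (by positivity)

end

end Pool.Agent.H57U
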