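import Pool.Agent.Lib.H57U.A1
import Pool.Agent.Lib.H57U.A2

/-!
Chunk A5 (M). From the bounds for the line to the bounds for the sum.
`R = P + Q` is the point `(x₃, -(l x₃ + c))` where `x₁, x₂, x₃` are the intersections of the line
`y = l x + c` with the curve; `λ = -l/c`, `ν = 1/c`, `‖λ‖ ≤ μ²`, `‖ν‖ ≤ μ³`, `μ ≤ δ`.
* `(l x₁ + c)(l x₂ + c)(l x₃ + c) = c³ (1 + a λ² + b λ³) ≠ 0` (`prod_y`; `‖aλ² + bλ³‖ < 1`), so
  `y₃ = -(l x₃ + c) ≠ 0`, `wc R ≠ 0`.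
* `sum_z`: `z₁ + z₂ - z₃ = (2alc - 3bl²)/(c³ + al²c - bl³) = -(2aλν + 3bλ²ν)/(1 + aλ² + bλ³)`
  (`z₃ = x₃ / y₃ = -x₃/(l x₃ + c)`), norm `≤ max (‖a‖ μ⁵) (‖b‖ μ⁷) ≤ μ²`.
* hence `‖z₃‖ ≤ μ ≤ δ`, and dividing `-y₃ = l x₃ + c` by `y₃`: `-1 = l z₃ + c w₃`,
  `w₃ = λ z₃ - ν`, norm `≤ μ³ ≤ δ`.
-/

set_option autoImplicit false

open WeierstrassCurve WeierstrassCurve.Affine Module
open Pool.Agent.H60.UDef

namespace Pool.Agent.H57U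

section

variable {F : Type} [Field F] {a b : F} {p : ℕ} [Fact p.Prime] {ρ : F →+* ℚ_[p]} {δ : ℝ}

theorem sum_bound (hδ : Small ρ a b δ) {R : ((shortW a b)⁄F).Point} {x₁ x₂ x₃ l c : F} {μ : ℝ}
    (hμ : μ ≤ δ) (hμ0 : 0 ≤ μ) (e1 : x₁ + x₂ + x₃ = l ^ 2)
    (e2 : x₁ * x₂ + x₁ * x₃ + x₂ * x₃ = a - 2 * l * c) (e3 : x₁ * x₂ * x₃ = c ^ 2 - b)
    (h1 : l * x₁ + c ≠ 0) (h2 : l * x₂ + c ≠ 0)
    (hz1 : ‖ρ (x₁ / (l * x₁ + c))‖ ≤ μ) (hz2 : ‖ρ (x₂ / (l * x₂ + c))‖ ≤ μ)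
    (hc : c ≠ 0) (hlc : ‖ρ (l / c)‖ ≤ μ ^ 2) (hc1 : ‖ρ (1 / c)‖ ≤ μ ^ 3)
    (hR : IsAt R x₃ (-(l * x₃ + c))) :
    InU ρ δ R ∧ ‖ρ (zc R) - ρ (x₁ / (l * x₁ + c)) - ρ (x₂ / (l * x₂ + c))‖ ≤ μ ^ 2 ∧
      ‖ρ (zc R)‖ ≤ μ := by
  have hδ1 := hδ.lt_one
  have hμ1 : μ ≤ 1 := le_trans hμ hδ1.le
  have hμ2 : μ ^ 2 ≤ μ := by
    rw [pow_two]
    exact mul_le_of_le_one_left hμ0 hμ1
  have hΛδ : ‖ρ (l / c)‖ ≤ δ := le_trans hlc (le_trans hμ2 hμ)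
  have hΛ2 : ‖ρ (l / c) ^ 2‖ ≤ δ := by
    rw [norm_pow, pow_two]
    exact le_trans (mul_le_of_le_one_left (norm_nonneg _) (le_trans hΛδ hδ1.le)) hΛδ
  -- the denominator
  set D : F := 1 - (b * (l / c) * (l / c) ^ 2 - a * (l / c) * (l / c)) with hD
  have hρD : ‖ρ D‖ = 1 := by
    rw [hD]
    simp only [map_sub, map_mul, map_pow, map_one]
    exact a1_one_sub (lt_of_le_of_lt (a1_sub_le (a1_mul3 hδ.hb hΛδ hΛ2)
      (a1_mul3 hδ.ha hΛδ hΛδ)) hδ1)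
  have hD0 : D ≠ 0 := by
    intro h0
    rw [h0, map_zero, norm_zero] at hρD
    exact zero_ne_one hρD
  have hprod : c ^ 3 + a * l ^ 2 * c - b * l ^ 3 = c ^ 3 * D := by
    rw [hD]
    field_simp
    ring
  have hP := prod_y e1 e2 e3
  have h3 : l * x₃ + c ≠ 0 := by
    intro h0
    rw [h0, mul_zero, hprod] at hP
    exact mul_ne_zero (pow_ne_zero 3 hc) hD0 hP.symm
  have hS := sum_z e1 e2 e3 h1 h2 h3
  have hzR : zc R = -(x₃ / (l * x₃ + c)) := by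
    rw [zc_isAt hR, div_neg]
  have hwR : wc R = -(l * x₃ + c)⁻¹ := by
    rw [wc_isAt hR, inv_neg]
  have hwR0 : wc R ≠ 0 := by
    rw [hwR]
    exact neg_ne_zero.2 (inv_ne_zero h3)
  set E : F := (a * (l / c) * (1 / c) + a * (l / c) * (1 / c)
      - (b * (l / c) ^ 2 * (1 / c) + (b * (l / c) ^ 2 * (1 / c) + b * (l / c) ^ 2 * (1 / c))))
    with hE
  have hdiff : zc R - x₁ / (l * x₁ + c) - x₂ / (l * x₂ + c) = -(E / D) := by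
    have h4 : (2 * a * l * c - 3 * b * l ^ 2) / (c ^ 3 + a * l ^ 2 * c - b * l ^ 3) = E / D := by
      rw [hprod, div_eq_div_iff (mul_ne_zero (pow_ne_zero 3 hc) hD0) hD0]
      have h5 : 2 * a * l * c - 3 * b * l ^ 2 = c ^ 3 * E := by
        rw [hE]
        field_simp
        ring
      rw [h5]
      ring
    rw [hzR, ← h4, ← hS]
    ring
  have hEn : ‖ρ E‖ ≤ μ ^ 2 := by
    have hA : ‖ρ (a * (l / c) * (1 / c))‖ ≤ μ ^ 2 := by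
      rw [map_mul, map_mul, norm_mul, norm_mul]
      have g1 : ‖ρ a‖ * ‖ρ (l / c)‖ ≤ 1 :=
        le_trans (mul_le_mul_of_nonneg_left hΛδ (norm_nonneg _)) hδ.ha
      calc ‖ρ a‖ * ‖ρ (l / c)‖ * ‖ρ (1 / c)‖ ≤ 1 * μ ^ 3 :=
            mul_le_mul g1 hc1 (norm_nonneg _) zero_le_one
        _ ≤ μ ^ 2 := by
            rw [one_mul]
            exact pow_le_pow_of_le_one hμ0 hμ1 (by norm_num)
    have hB : ‖ρ (b * (l / c) ^ 2 * (1 / c))‖ ≤ μ ^ 2 := by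
      rw [map_mul, map_mul, map_pow, norm_mul, norm_mul]
      have g1 : ‖ρ b‖ * ‖ρ (l / c) ^ 2‖ ≤ 1 :=
        le_trans (mul_le_mul_of_nonneg_left hΛ2 (norm_nonneg _)) hδ.hb
      calc ‖ρ b‖ * ‖ρ (l / c) ^ 2‖ * ‖ρ (1 / c)‖ ≤ 1 * μ ^ 3 :=
            mul_le_mul g1 hc1 (norm_nonneg _) zero_le_one
        _ ≤ μ ^ 2 := by
            rw [one_mul]
            exact pow_le_pow_of_le_one hμ0 hμ1 (by norm_num)
    rw [hE, map_sub, map_add, map_add, map_add]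
    exact a1_sub_le (a1_add_le hA hA) (a1_add_le hB (a1_add_le hB hB))
  have hmain : ‖ρ (zc R) - ρ (x₁ / (l * x₁ + c)) - ρ (x₂ / (l * x₂ + c))‖ ≤ μ ^ 2 := by
    rw [← map_sub, ← map_sub, hdiff, map_neg, map_div₀, norm_neg, norm_div, hρD, div_one]
    exact hEn
  have hzn : ‖ρ (zc R)‖ ≤ μ := by
    have g : ρ (zc R) = (ρ (zc R) - ρ (x₁ / (l * x₁ + c)) - ρ (x₂ / (l * x₂ + c)))
        + (ρ (x₁ / (l * x₁ + c)) + ρ (x₂ / (l * x₂ + c))) := by ring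
    rw [g]
    exact a1_add_le (le_trans hmain hμ2) (a1_add_le hz1 hz2)
  refine ⟨⟨Or.inr hwR0, le_trans hzn hμ, ?_⟩, hmain, hzn⟩
  have hw3 : wc R = -(l / c) * zc R - 1 / c := by
    rw [hwR, hzR]
    field_simp
    ring
  have hμ3 : μ ^ 3 ≤ δ := by
    refine le_trans ?_ hμ
    calc μ ^ 3 = μ ^ 2 * μ := by ring
      _ ≤ 1 * μ := mul_le_mul_of_nonneg_right (le_trans hμ2 hμ1) hμ0
      _ = μ := one_mul μ
  refine le_trans ?_ hμ3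
  rw [hw3, map_sub, map_mul, map_neg]
  refine a1_sub_le ?_ hc1
  rw [norm_mul, norm_neg, pow_succ]
  exact mul_le_mul hlc hzn (norm_nonneg _) (by positivity)

end

end Pool.Agent.H57U
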