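import Pool.Agent.Lib.H57U.A3
import Pool.Agent.Lib.H57U.A4
import Pool.Agent.Lib.H57U.A5

/-!
Chunk A6 (M). The neighbourhood is closed under addition, `z` is additive up to `μ²`.
Cases: `P = 0`, `Q = 0` trivial; both affine, `P = (x₁, y₁)`, `Q = (x₂, y₂)` (`exists_isAt`).
* `x₁ ≠ x₂`: `IsAt.add` gives `P + Q` with `l = (y₁ - y₂)/(x₁ - x₂)`, `x₃ = l² - x₁ - x₂`,
  `y₃ = l (x₁ - x₃) - y₁ = -(l x₃ + c)`, `c = y₁ - l x₁`; use `chord_rel`, `chord_bound`,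
  `sum_bound` (`z_i = x_i / y_i`, `y_i = l x_i + c`, `y_i ≠ 0` as `wc ≠ 0`).
* `x₁ = x₂`: then `y₂ = ± y₁`. If `y₂ = -y₁`, `Q = -P` (`IsAt.ext`, `IsAt.neg`), the sum is `0` and
  `z` is odd. If `y₂ = y₁`: `Q = P`, use `IsAt.dbl`, `tangent_rel`, `tangent_bound`, `sum_bound`.
(In `IsAt.dbl` the coefficient is `algebraMap F F a`, `simp`/`Algebra.algebraMap_self`.)
-/

set_option autoImplicit false

open WeierstrassCurve WeierstrassCurve.Affine Module
open Pool.Agent.H60.UDef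

namespace Pool.Agent.H57U

section

variable {F : Type} [Field F] [DecidableEq F] {a b : F} {p : ℕ} [Fact p.Prime] {ρ : F →+* ℚ_[p]}
  {δ : ℝ}

theorem add_bound (hδ : Small ρ a b δ) {P Q : ((shortW a b)⁄F).Point} (hP : InU ρ δ P)
    (hQ : InU ρ δ Q) :
    InU ρ δ (P + Q) ∧
      ‖ρ (zc (P + Q)) - ρ (zc P) - ρ (zc Q)‖ ≤ max ‖ρ (zc P)‖ ‖ρ (zc Q)‖ ^ 2 ∧
      ‖ρ (zc (P + Q))‖ ≤ max ‖ρ (zc P)‖ ‖ρ (zc Q)‖ := by
  have hchar : CharZero F := RingHom.charZero ρ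
  by_cases hP0 : P = 0
  · subst hP0
    rw [zero_add]
    refine ⟨hQ, ?_, le_max_right _ _⟩
    rw [zc_zero, map_zero, sub_zero, sub_self, norm_zero]
    positivity
  by_cases hQ0 : Q = 0
  · subst hQ0
    rw [add_zero]
    refine ⟨hP, ?_, le_max_left _ _⟩
    rw [zc_zero, map_zero, sub_zero, sub_self, norm_zero]
    positivity
  obtain ⟨x₁, y₁, h1⟩ := exists_isAt hP0
  obtain ⟨x₂, y₂, h2⟩ := exists_isAt hQ0
  have hwP : wc P ≠ 0 := hP.1.resolve_left hP0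
  have hwQ : wc Q ≠ 0 := hQ.1.resolve_left hQ0
  have hy1 : y₁ ≠ 0 := by
    rintro rfl
    rw [wc_isAt h1, inv_zero] at hwP
    exact hwP rfl
  have hy2 : y₂ ≠ 0 := by
    rintro rfl
    rw [wc_isAt h2, inv_zero] at hwQ
    exact hwQ rfl
  have q1 := h1.eqn
  have q2 := h2.eqn
  simp only [Algebra.algebraMap_self, RingHom.id_apply] at q1 q2
  have hμδ : max ‖ρ (zc P)‖ ‖ρ (zc Q)‖ ≤ δ := max_le hP.2.1 hQ.2.1
  have hμ0 : 0 ≤ max ‖ρ (zc P)‖ ‖ρ (zc Q)‖ := le_trans (norm_nonneg _) (le_max_left _ _)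
  by_cases hx : x₁ = x₂
  · subst hx
    have hyy : (y₁ - y₂) * (y₁ + y₂) = 0 := by linear_combination q1 - q2
    rcases mul_eq_zero.1 hyy with h | h
    · -- `P = Q`
      have hy : y₁ = y₂ := sub_eq_zero.1 h
      subst hy
      have hPQ : P = Q := h1.ext h2
      subst hPQ
      have hd := h1.dbl hy1
      simp only [Algebra.algebraMap_self, RingHom.id_apply] at hd
      set l : F := (3 * x₁ ^ 2 + a) / (2 * y₁) with hl
      set c : F := y₁ - l * x₁ with hc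
      obtain ⟨-, hc0, hb1, hb2⟩ := tangent_bound hδ hP h1 hl hc
      have hl' : l * (2 * y₁) = 3 * x₁ ^ 2 + a := by
        rw [hl, div_mul_cancel₀ _ (mul_ne_zero two_ne_zero hy1)]
      have hyc : y₁ = l * x₁ + c := by rw [hc]; ring
      obtain ⟨e1, e2, e3⟩ := tangent_rel (x₃ := l ^ 2 - x₁ - x₁) q1 hl' hyc rfl
      have hR : IsAt (P + P) (l ^ 2 - x₁ - x₁) (-(l * (l ^ 2 - x₁ - x₁) + c)) := by
        have : l * (x₁ - (l ^ 2 - x₁ - x₁)) - y₁ = -(l * (l ^ 2 - x₁ - x₁) + c) := by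
          rw [hc]; ring
        rw [← this]
        exact hd
      have hz : zc P = x₁ / (l * x₁ + c) := by rw [zc_isAt h1, ← hyc]
      have hnz : l * x₁ + c ≠ 0 := hyc ▸ hy1
      rw [max_self]
      have := sum_bound hδ (μ := ‖ρ (zc P)‖) hP.2.1 (norm_nonneg _) e1 e2 e3 hnz hnz
        (by rw [← hz]) (by rw [← hz]) hc0 hb1 hb2 hR
      rw [← hz] at this
      exact this
    · -- `Q = -P`
      have hy : y₂ = -y₁ := by linear_combination h
      subst hy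
      have hPQ : Q = -P := h2.ext h1.neg
      subst hPQ
      rw [add_neg_cancel]
      refine ⟨inU_zero hδ.pos, ?_, ?_⟩
      · rw [zc_zero, zc_neg, map_zero, map_neg, zero_sub, sub_neg_eq_add, neg_add_cancel, norm_zero]
        positivity
      · rw [zc_zero, map_zero, norm_zero]
        exact hμ0
  · have hd := h1.add h2 hx
    set l : F := (y₁ - y₂) / (x₁ - x₂) with hl
    set c : F := y₁ - l * x₁ with hc
    obtain ⟨hc0, hb1, hb2⟩ := chord_bound hδ hP hQ h1 h2 hx hl hc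
    have hl' : l * (x₁ - x₂) = y₁ - y₂ := by
      rw [hl, div_mul_cancel₀ _ (sub_ne_zero.2 hx)]
    have hyc1 : y₁ = l * x₁ + c := by rw [hc]; ring
    have hyc2 : y₂ = l * x₂ + c := by linear_combination hyc1 + hl'
    obtain ⟨e1, e2, e3⟩ := chord_rel (x₃ := l ^ 2 - x₁ - x₂) q1 q2 hx hyc1 hyc2 rfl
    have hR : IsAt (P + Q) (l ^ 2 - x₁ - x₂) (-(l * (l ^ 2 - x₁ - x₂) + c)) := by
      have : l * (x₁ - (l ^ 2 - x₁ - x₂)) - y₁ = -(l * (l ^ 2 - x₁ - x₂) + c) := by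
        rw [hc]; ring
      rw [← this]
      exact hd
    have hz1 : zc P = x₁ / (l * x₁ + c) := by rw [zc_isAt h1, ← hyc1]
    have hz2 : zc Q = x₂ / (l * x₂ + c) := by rw [zc_isAt h2, ← hyc2]
    have hnz1 : l * x₁ + c ≠ 0 := hyc1 ▸ hy1
    have hnz2 : l * x₂ + c ≠ 0 := hyc2 ▸ hy2
    have := sum_bound hδ hμδ hμ0 e1 e2 e3 hnz1 hnz2
      (by rw [← hz1]; exact le_max_left _ _) (by rw [← hz2]; exact le_max_right _ _)
      hc0 hb1 hb2 hR
    rw [← hz1, ← hz2] at this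
    exact this

end

end Pool.Agent.H57U
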