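import Pool.Agent.Lib.H57U.Defs

/-!
H57U: the context (curve, multiple `n + 1`, logarithms at all places) and the certificate.
-/

set_option autoImplicit false

open WeierstrassCurve WeierstrassCurve.Affine Module
open Pool.Agent.H60.UDef

namespace Pool.Agent.H57U

open scoped Classical in
/-- A curve over `L`, a positive multiple `n + 1` that carries all points into the neighbourhoods at
all embeddings `L → ℚ_p`, additive logarithms there, and a point with nonzero multiple. -/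
structure Ctx (p : ℕ) [Fact p.Prime] (L : Type) [Field L] (a b : L) where
  hab : 4 * a ^ 3 + 27 * b ^ 2 ≠ 0
  n : ℕ
  δ : ℝ
  small : ∀ σ : L →+* ℚ_[p], Small σ a b δ
  inU : ∀ (P : ((shortW a b)⁄L).Point) (σ : L →+* ℚ_[p]), InU σ δ ((n + 1) • P)
  lg : (L →+* ℚ_[p]) → ((shortW a b)⁄L).Point → ℚ_[p]
  lg_add : ∀ σ P Q, InU σ δ P → InU σ δ Q → lg σ (P + Q) = lg σ P + lg σ Q
  lg_bound : ∀ σ P, InU σ δ P → ‖lg σ P - σ (zc P)‖ ≤ p * ‖σ (zc P)‖ ^ 2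
  star : ∃ P : ((shortW a b)⁄L).Point, (n + 1) • P ≠ 0

section

variable {p : ℕ} [Fact p.Prime] {L : Type} [Field L] {a b : L}

open scoped Classical in
/-- The vector of logarithms of `(n + 1) P`. -/
noncomputable def Ctx.vec (C : Ctx p L a b) (P : ((shortW a b)⁄L).Point) :
    (L →+* ℚ_[p]) → ℚ_[p] := fun σ => C.lg σ ((C.n + 1) • P)

/-- The space spanned by the logarithms. -/
noncomputable def Ctx.W (C : Ctx p L a b) : Submodule ℚ_[p] ((L →+* ℚ_[p]) → ℚ_[p]) :=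
  Submodule.span ℚ_[p] (Set.range C.vec)

open scoped Classical in
/-- The `z`-coordinates of the nonzero points `(n + 1) P`. -/
def Ctx.Zs (C : Ctx p L a b) (z : L) : Prop :=
  ∃ P : ((shortW a b)⁄L).Point, (C.n + 1) • P ≠ 0 ∧ zc ((C.n + 1) • P) = z

/-- Restriction of functions to `B`. -/
noncomputable abbrev res (B : Set (L →+* ℚ_[p])) :
    ((L →+* ℚ_[p]) → ℚ_[p]) →ₗ[ℚ_[p]] (B → ℚ_[p]) :=
  LinearMap.funLeft ℚ_[p] ℚ_[p] (Subtype.val : B → (L →+* ℚ_[p]))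

/-- The certificate for `i x ≠ j x`. -/
def Cert (Z : L → Prop) (B : Set (L →+* ℚ_[p])) (i j : L →+* ℚ_[p]) {s : ℕ} (c : Fin (s + 1) → L)
    (M0 M1 M2 M3 : ℕ) (x : L) : Prop :=
  ∃ (z t : Fin (s + 1) → L) (r : L),
    (∀ k, Z (z k)) ∧ (∀ k, t k = 0 ∨ Z (t k)) ∧
    (∀ v ∈ B, ∀ k, ‖v (z k - c k * z 0)‖ * (p : ℝ) ^ M0 ≤ ‖v (z 0)‖) ∧
    (∀ v ∈ B, ∀ k, ‖v (r * z k - t k)‖ ≤ (p : ℝ) ^ M1 * ‖v (z 0)‖ ^ 2) ∧
    (∀ v ∈ B, ‖v (z 0)‖ * (p : ℝ) ^ M3 ≤ 1) ∧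
    (∀ v ∈ B, ‖v r‖ ≤ 1) ∧
    ‖i (x - r)‖ ≤ ‖i (z 0)‖ ∧ x ≠ r ∧ (p : ℝ) ^ M2 * ‖j (z 0)‖ ≤ ‖j (x - r)‖

end

end Pool.Agent.H57U
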