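import Pool.Agent.Lib.H57U.Defs

/-!
Chunk D1 (M). Subalgebras of `I → k`, `I` finite, `k` a field.
`i ~ j` iff `f i = f j` for all `f ∈ R`.
* `indicator_mem`: the indicator of the class of `i₀` is in `R`: for every `j` outside the class
  there is `f ∈ R` with `f i₀ ≠ f j`; `g_j = (f - f j) / (f i₀ - f j) ∈ R` is `1` on the class of
  `i₀` and `0` at `j`; take the product over `j` outside the class (times `1`).
* `exists_pair`: if `y ∉ R` then `y` is not constant on some class (otherwise `y` is the sum over
  the classes of constants times indicators; e.g. `y = Σ_i (y i / |class of i|) 1_{class of i}`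
  needs char 0, so better choose representatives, or use `Quotient` / `Finset.image`).
-/

set_option autoImplicit false

namespace Pool.Agent.H57U

open scoped Classical in
theorem indicator_mem {I k : Type} [Finite I] [Field k] (R : Subalgebra k (I → k)) (i₀ : I) :
    (fun j => if ∀ f ∈ R, f i₀ = f j then (1 : k) else 0) ∈ R := by
  haveI := Fintype.ofFinite I
  have h1 : ∀ j : I, ∃ g ∈ R, (∀ i, (∀ f ∈ R, f i₀ = f i) → g i = 1) ∧
      ((¬ ∀ f ∈ R, f i₀ = f j) → g j = 0) := by
    intro j
    by_cases hj : ∀ f ∈ R, f i₀ = f j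
    · exact ⟨1, R.one_mem, fun i _ => rfl, fun h => absurd hj h⟩
    · push Not at hj
      obtain ⟨f, hf, hfj⟩ := hj
      refine ⟨(f i₀ - f j)⁻¹ • (f - algebraMap k (I → k) (f j)),
        R.smul_mem (R.sub_mem hf (R.algebraMap_mem _)) _, ?_, ?_⟩
      · intro i hi
        simp only [Pi.smul_apply, Pi.sub_apply, Pi.algebraMap_apply, Algebra.algebraMap_self,
          RingHom.id_apply, smul_eq_mul]
        rw [← hi f hf]
        exact inv_mul_cancel₀ (sub_ne_zero.mpr hfj)
      · intro _
        simp [Pi.algebraMap_apply]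
  choose g hgR hg1 hg2 using h1
  have h2 : (fun j => if ∀ f ∈ R, f i₀ = f j then (1 : k) else 0) = ∏ j, g j := by
    funext i
    rw [Finset.prod_apply]
    split_ifs with hi
    · exact (Finset.prod_eq_one fun j _ => hg1 j i hi).symm
    · exact (Finset.prod_eq_zero (f := fun c => g c i) (Finset.mem_univ i) (hg2 i hi)).symm
  rw [h2]
  exact Subalgebra.prod_mem _ fun j _ => hgR j

open scoped Classical in
theorem exists_pair {I k : Type} [Finite I] [Field k] (R : Subalgebra k (I → k)) {y : I → k}
    (hy : y ∉ R) : ∃ i j, (∀ f ∈ R, f i = f j) ∧ y i ≠ y j := by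
  haveI := Fintype.ofFinite I
  by_contra hcon
  push Not at hcon
  apply hy
  let s : Setoid I := ⟨fun i j => ∀ f ∈ R, f i = f j, fun _ _ _ => rfl,
    fun h f hf => (h f hf).symm, fun h h' f hf => (h f hf).trans (h' f hf)⟩
  have h2 : y = ∑ q : Quotient s,
      y q.out • (fun j => if ∀ f ∈ R, f q.out = f j then (1 : k) else 0) := by
    funext i
    rw [Finset.sum_apply]
    rw [Finset.sum_eq_single (Quotient.mk s i)]
    · have h3 : ∀ f ∈ R, f (Quotient.mk s i).out = f i := Quotient.mk_out (s := s) i
      simp only [Pi.smul_apply, smul_eq_mul]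
      rw [if_pos h3, mul_one]
      exact (hcon _ _ h3).symm
    · intro q _ hq
      have h3 : ¬ ∀ f ∈ R, f q.out = f i := by
        intro h4
        apply hq
        rw [← Quotient.out_eq q]
        exact Quotient.sound (s := s) h4
      simp only [Pi.smul_apply, smul_eq_mul]
      rw [if_neg h3, mul_zero]
    · intro h
      exact absurd (Finset.mem_univ _) h
  rw [h2]
  exact Subalgebra.sum_mem _ fun q _ => R.smul_mem (indicator_mem R _) _

end Pool.Agent.H57U
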