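import Pool.Agent.Lib.H57U.D1

/-!
Chunk D2 (M).
`not_mem_mult`: let `p` split completely in `L`, `W` a space of dimension `≤ r` containing a vector
`w` without zero coordinates, `deg x > r`. Then `(σ x)_σ` is not a multiplier of `W`.
Proof: otherwise `v_k = (σ x ^ k)_σ`, `k ≤ r`, are multipliers (`mult W` is a subalgebra), and
`v_k * w ∈ W` are `r + 1` vectors of `W`; they are linearly independent because `y ↦ y * w` is
injective and the `v_k` are independent by `Splits.linearIndependent` (`1, x, ..., x ^ r` are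
independent over `ℚ` as `r < deg (minpoly ℚ x)`: `linearIndependent_pow`). Contradiction.

`restrict_const`: let `B` be the class of `i₀` for `mult W`. A function `y` on `B` with
`y * v ∈ W_B` for all `v ∈ W_B` (`W_B` = restrictions to `B`) is constant: extend `y` by `0` to
`ỹ`; for `w ∈ W`, `y * w|_B = w'|_B` with `w' ∈ W`, so `ỹ * w = e_B * w' ∈ W` (`indicator_mem`),
hence `ỹ ∈ mult W` is constant on `B`.
-/

set_option autoImplicit false

open Module
open Pool.Agent.H60.UDef

namespace Pool.Agent.H57U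

/-- Elements of `L` that are independent over `ℚ` and multiply `W` into itself: at most `dim W`. -/
theorem card_le_of_mult {p : ℕ} [Fact p.Prime] {L : Type} [Field L] [NumberField L]
    (hs : Splits p L) {r : ℕ} (W : Submodule ℚ_[p] ((L →+* ℚ_[p]) → ℚ_[p]))
    (hW : finrank ℚ_[p] W ≤ r) {w : (L →+* ℚ_[p]) → ℚ_[p]} (hwW : w ∈ W) (hw : ∀ σ, w σ ≠ 0)
    {m : ℕ} (t : Fin m → L) (ht : LinearIndependent ℚ t)
    (hm : ∀ k, (fun σ : L →+* ℚ_[p] => σ (t k)) ∈ mult W) : m ≤ r := by
  have h1 := hs.linearIndependent ht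
  have h2 : LinearIndependent ℚ_[p] (fun k => (⟨(fun σ : L →+* ℚ_[p] => σ (t k)) * w,
      hm k w hwW⟩ : W)) := by
    apply LinearIndependent.of_comp W.subtype
    have h3 : (fun k => W.subtype (⟨(fun σ : L →+* ℚ_[p] => σ (t k)) * w, hm k w hwW⟩ : W))
        = (LinearMap.mulRight ℚ_[p] w) ∘ (fun k => (fun σ : L →+* ℚ_[p] => σ (t k))) := by
      funext k
      rfl
    show LinearIndependent ℚ_[p]
      (fun k => W.subtype (⟨(fun σ : L →+* ℚ_[p] => σ (t k)) * w, hm k w hwW⟩ : W))
    rw [h3]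
    refine h1.map' _ ?_
    rw [LinearMap.ker_eq_bot]
    intro u v huv
    funext σ
    have := congrFun huv σ
    simp only [LinearMap.mulRight_apply, Pi.mul_apply] at this
    exact mul_right_cancel₀ (hw σ) this
  haveI : Finite (L →+* ℚ_[p]) := by
    infer_instance
  have h4 := h2.fintype_card_le_finrank
  rw [Fintype.card_fin] at h4
  exact h4.trans hW

theorem not_mem_mult {p : ℕ} [Fact p.Prime] {L : Type} [Field L] [NumberField L]
    (hs : Splits p L) {r : ℕ} (W : Submodule ℚ_[p] ((L →+* ℚ_[p]) → ℚ_[p]))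
    (hW : finrank ℚ_[p] W ≤ r) {w : (L →+* ℚ_[p]) → ℚ_[p]} (hwW : w ∈ W) (hw : ∀ σ, w σ ≠ 0)
    (x : L) (hx : r < (minpoly ℚ x).natDegree) : (fun σ : L →+* ℚ_[p] => σ x) ∉ mult W := by
  intro hmem
  have h1 : LinearIndependent ℚ (fun k : Fin (r + 1) => x ^ (k : ℕ)) := by
    have h2 := linearIndependent_pow (K := ℚ) x
    exact h2.comp (Fin.castLE hx) (Fin.castLE_injective hx)
  have h3 := card_le_of_mult hs W hW hwW hw (fun k : Fin (r + 1) => x ^ (k : ℕ)) h1 (by
    intro k
    have h4 := (mult W).pow_mem hmem (k : ℕ)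
    have h5 : (fun σ : L →+* ℚ_[p] => σ (x ^ (k : ℕ))) = (fun σ : L →+* ℚ_[p] => σ x) ^ (k : ℕ) := by
      funext σ
      simp
    rw [h5]
    exact h4)
  omega

open scoped Classical in
theorem restrict_const {I k : Type} [Finite I] [Field k] (W : Submodule k (I → k)) (i₀ : I)
    (y : {i // ∀ f ∈ mult W, f i₀ = f i} → k)
    (hy : ∀ v ∈ W.map (LinearMap.funLeft k k (Subtype.val : {i // ∀ f ∈ mult W, f i₀ = f i} → I)),
      y * v ∈ W.map (LinearMap.funLeft k k (Subtype.val : {i // ∀ f ∈ mult W, f i₀ = f i} → I)))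
    (i j : {i // ∀ f ∈ mult W, f i₀ = f i}) : y i = y j := by
  let Y : I → k := fun i => if h : ∀ f ∈ mult W, f i₀ = f i then y ⟨i, h⟩ else 0
  have hY : Y ∈ mult W := by
    intro w hw
    obtain ⟨w', hw', h1⟩ := hy _ (Submodule.mem_map_of_mem hw)
    have h2 : Y * w = (fun j => if ∀ f ∈ mult W, f i₀ = f j then (1 : k) else 0) * w' := by
      funext l
      simp only [Pi.mul_apply, Y]
      by_cases hl : ∀ f ∈ mult W, f i₀ = f l
      · rw [dif_pos hl, if_pos hl, one_mul]
        have h3 := congrFun h1 ⟨l, hl⟩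
        simp only [LinearMap.funLeft_apply, Pi.mul_apply] at h3
        exact h3.symm
      · rw [dif_neg hl, if_neg hl, zero_mul, zero_mul]
    rw [h2]
    exact indicator_mem (mult W) i₀ w' hw'
  have h4 : ∀ l : {i // ∀ f ∈ mult W, f i₀ = f i}, Y i₀ = y l := by
    intro l
    rw [l.2 Y hY]
    simp only [Y]
    rw [dif_pos l.2]
  rw [← h4 i, ← h4 j]

end Pool.Agent.H57U
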