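import Pool.Agent.Lib.H60.UDef.Criterion

/-!
H57U (MP_12fa5c_lc.SmallRank): definitions.

The curve is `y² = x³ + a x + b` over a field `F`; `zc P = x / y`, `wc P = 1 / y` are the
coordinates near the origin (both `0` at the origin); they satisfy `w = z³ + a z w² + b w³`.
-/

set_option autoImplicit false

open WeierstrassCurve WeierstrassCurve.Affine Module
open Pool.Agent.H60.UDef

namespace Pool.Agent.H57U

section

variable {F : Type} [Field F] {a b : F}

/-- `x / y`. -/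
def zc : ((shortW a b)⁄F).Point → F
  | .zero => 0
  | .some x y _ => x / y

/-- `1 / y`. -/
def wc : ((shortW a b)⁄F).Point → F
  | .zero => 0
  | .some _ y _ => y⁻¹

@[simp] theorem zc_zero : zc (0 : ((shortW a b)⁄F).Point) = 0 := rfl

@[simp] theorem wc_zero : wc (0 : ((shortW a b)⁄F).Point) = 0 := rfl

theorem zc_isAt {P : ((shortW a b)⁄F).Point} {x y : F} (h : IsAt P x y) : zc P = x / y := by
  obtain ⟨h, rfl⟩ := h
  rfl

theorem wc_isAt {P : ((shortW a b)⁄F).Point} {x y : F} (h : IsAt P x y) : wc P = y⁻¹ := by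
  obtain ⟨h, rfl⟩ := h
  rfl

variable {p : ℕ} [Fact p.Prime]

/-- `P` lies in the `δ`-neighbourhood of the origin at the place `ρ`. -/
def InU (ρ : F →+* ℚ_[p]) (δ : ℝ) (P : ((shortW a b)⁄F).Point) : Prop :=
  (P = 0 ∨ wc P ≠ 0) ∧ ‖ρ (zc P)‖ ≤ δ ∧ ‖ρ (wc P)‖ ≤ δ

/-- `δ` is small enough at the place `ρ`. -/
structure Small (ρ : F →+* ℚ_[p]) (a b : F) (δ : ℝ) : Prop where
  pos : 0 < δ
  le : δ ≤ ((p : ℝ)⁻¹) ^ 2
  ha : ‖ρ a‖ * δ ≤ 1
  hb : ‖ρ b‖ * δ ≤ 1

theorem inU_zero {ρ : F →+* ℚ_[p]} {δ : ℝ} (hδ : 0 < δ) :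
    InU ρ δ (0 : ((shortW a b)⁄F).Point) := by
  refine ⟨Or.inl rfl, ?_, ?_⟩ <;> simp [hδ.le]

theorem Small.lt_one {ρ : F →+* ℚ_[p]} {δ : ℝ} (h : Small ρ a b δ) : δ < 1 := by
  have hp : (1 : ℝ) < p := by exact_mod_cast (Fact.out : p.Prime).one_lt
  have h1 : (p : ℝ)⁻¹ < 1 := inv_lt_one_of_one_lt₀ hp
  have h0 : 0 < (p : ℝ)⁻¹ := by positivity
  have := h.le
  nlinarith

end

/-- The multiplier algebra of a space of functions. -/
def mult {I k : Type} [Field k] (W : Submodule k (I → k)) : Subalgebra k (I → k) where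
  carrier := {y | ∀ w ∈ W, y * w ∈ W}
  mul_mem' := by
    intro y y' hy hy' w hw
    rw [mul_assoc]
    exact hy _ (hy' _ hw)
  add_mem' := by
    intro y y' hy hy' w hw
    rw [add_mul]
    exact W.add_mem (hy _ hw) (hy' _ hw)
  algebraMap_mem' := by
    intro c w hw
    have : (algebraMap k (I → k)) c * w = c • w := by
      rw [Algebra.smul_def]
    rw [this]
    exact W.smul_mem c hw

theorem mem_mult {I k : Type} [Field k] {W : Submodule k (I → k)} {y : I → k} :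
    y ∈ mult W ↔ ∀ w ∈ W, y * w ∈ W := Iff.rfl

open scoped Classical in
/-- `E : y² = x³ + a x + b` has a point of infinite order over `L` and, up to a positive multiple,
its points over `L` are generated by `r` of them: `1 ≤ rank E(L) ≤ r`. -/
def SmallRank (L : Type) [Field L] (r : ℕ) : Prop :=
  ∃ a b : L, 4 * a ^ 3 + 27 * b ^ 2 ≠ 0 ∧
    (∃ P : ((shortW a b)⁄L).Point, ∀ n : ℕ, 0 < n → n • P ≠ 0) ∧
    ∃ m : ℕ, 0 < m ∧ ∃ G : Fin r → ((shortW a b)⁄L).Point,
      ∀ P : ((shortW a b)⁄L).Point, ∃ k : Fin r → ℤ, m • P = ∑ j, k j • G j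

end Pool.Agent.H57U
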