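import Pool.Agent.Lib.H57U.E5

/-!
Chunk F1 (M). Assembly.
* `exists_subfield`: `SmallRank L r`, `deg x > r`. Take `p` with `Splits p L`, `p ≠ 2`
  (`exists_splits L 2`), `exists_goodPrime`, `exists_ctx`; `vec P₀` (`star`) has no zero coordinates;
  `not_mem_mult`, `exists_pair`: `i ~ j` with `i x ≠ j x`; the subfield is
  `{y : i y = j y}` (`RingHom.eqLocusField`, or any `Subfield` built by hand), complement
  Diophantine by `Ctx.dioP_ne`.
* `dio_not_rat'`: as `dio_not_rat_aux` in H60.UDef.Main: let `Good E` (for `E : Subfield K`) mean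
  `DioP K (fun y => y ∉ E)`; `K` has finitely many subfields; `DioP K (fun y => ∃ E, Good E ∧ y ∉ E)`
  by `DioP.exists_fintype`; this set is the complement of `ℚ`: a rational number is in every subfield
  (`SubfieldClass.ratCast_mem`), and for `x` not rational the hypothesis gives `L`, `r`;
  `exists_subfield` for `algebraMap K L x` (same minimal polynomial: `minpoly.algebraMap_eq`) gives
  `E' : Subfield L`; `E = E'.comap (algebraMap K L)`; `DioP.restrict`. Parameters are removed by
  `DioP.elim` as there.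
-/

set_option autoImplicit false

open WeierstrassCurve WeierstrassCurve.Affine Module
open Pool.Agent.H60.UDef

namespace Pool.Agent.H57U

theorem exists_subfield (L : Type) [Field L] [NumberField L] {r : ℕ} (h : SmallRank L r) (x : L)
    (hx : r < (minpoly ℚ x).natDegree) :
    ∃ E : Subfield L, DioP L (fun y => y ∉ E) ∧ x ∉ E := by
  classical
  obtain ⟨p, hp, h2, hs⟩ := exists_splits L 2
  obtain ⟨l₁, l₂, hg⟩ := exists_goodPrime p hp.out (by omega)
  obtain ⟨a, b, C, hW⟩ := exists_ctx p L h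
  obtain ⟨P₀, hP₀⟩ := C.star
  have h3 := not_mem_mult hs C.W hW (w := C.vec P₀) (Submodule.subset_span ⟨P₀, rfl⟩)
    (fun σ => C.vec_ne_zero hP₀ σ) x hx
  obtain ⟨i, j, hij, hne⟩ := exists_pair (mult C.W) h3
  refine ⟨RingHom.eqLocusField i j, ?_, fun hmem => hne hmem⟩
  exact (C.dioP_ne hs hg i j hij).congr fun y => Iff.rfl

theorem dio_not_rat' (K : Type) [Field K] [NumberField K]
    (h : ∀ x : K, (¬ ∃ q : ℚ, (q : K) = x) → ∃ (L : Type) (_ : Field L) (_ : NumberField L)
      (_ : Algebra K L) (r : ℕ), r < (minpoly ℚ x).natDegree ∧ SmallRank L r) :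
    Dio K (fun v : Fin 1 → K => ¬ ∃ q : ℚ, (q : K) = v 0) := by
  classical
  let Good : Subfield K → Prop := fun E => DioP K (fun y => y ∉ E)
  have h1 : ∀ E : Subfield K, DioP K (fun y => Good E ∧ y ∉ E) := by
    intro E
    by_cases hE : Good E
    · exact DioP.congr (id hE) fun y => ⟨fun hy => ⟨hE, hy⟩, fun hy => hy.2⟩
    · exact (DioR.false.dioP).congr fun y => by simp [hE]
  have h2 : DioP K (fun y => ∃ E : Subfield K, Good E ∧ y ∉ E) := DioP.exists_fintype h1
  have h4 : DioP K (fun x => ¬ ∃ q : ℚ, (q : K) = x) := by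
    refine h2.congr fun x => ?_
    constructor
    · rintro ⟨E, -, hE⟩ ⟨q, rfl⟩
      exact hE (SubfieldClass.ratCast_mem E q)
    · intro hx
      obtain ⟨L, _, _, _, r, hr, hL⟩ := h x hx
      obtain ⟨E', hE', hxE⟩ := exists_subfield L hL (algebraMap K L x) (by
        rwa [minpoly.algebraMap_eq (algebraMap K L).injective x])
      refine ⟨E'.comap (algebraMap K L), ?_, fun hmem => hxE hmem⟩
      exact (DioP.restrict K L hE').congr fun y => Iff.rfl
  exact h4.elim fun σ x hx ⟨q, hq⟩ => hx ⟨q, σ.injective (by rw [map_ratCast, hq])⟩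

theorem small_rank (K : Type) [Field K] [NumberField K] [FirstOrder.Ring.CompatibleRing K]
    (h : ∀ x : K, (¬ ∃ q : ℚ, (q : K) = x) → ∃ (L : Type) (_ : Field L) (_ : NumberField L)
      (_ : Algebra K L) (r : ℕ), r < (minpoly ℚ x).natDegree ∧ SmallRank L r) :
    UnivDef K (fun a => ∃ q : ℚ, (q : K) = a) ∧
      (UnivDef K (fun a => IsIntegral ℤ a) → UnivDef K (fun a => ∃ n : ℤ, (n : K) = a)) := by
  have h1 := univDef_of_dio (X := fun a : K => ∃ q : ℚ, (q : K) = a) (dio_not_rat' K h)
  exact ⟨h1, univDef_int_of h1⟩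

end Pool.Agent.H57U
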